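import Mathlib

/-!
# General centres (MP_a41896_nt): algebra

Families of polynomials in `n` variables, of degree `≤ D` in each variable, without a common factor
(also at infinity); elimination of one variable.
-/

namespace Pool.Agent.Helper29.GC

noncomputable section

/-! ## Elimination over a unique factorization domain -/

section elim

open Polynomial

variable {A : Type} [CommRing A] [IsDomain A] [UniqueFactorizationMonoid A]

theorem span_top {ι : Type} (p : ι → A[X]) (h : ∀ q, (∀ j, q ∣ p j) → IsUnit q) :
    Ideal.span (Set.range fun j => (p j).map (algebraMap A (FractionRing A))) = ⊤ := by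
  classical
  let nm : NormalizedGCDMonoid A := Classical.arbitrary _
  set L := FractionRing A
  obtain ⟨g, hg⟩ := IsPrincipalIdealRing.principal
    (Ideal.span (Set.range fun j => (p j).map (algebraMap A L)))
  have hdvd : ∀ j, g ∣ (p j).map (algebraMap A L) := by
    intro j
    have : (p j).map (algebraMap A L) ∈
        Ideal.span (Set.range fun j => (p j).map (algebraMap A L)) :=
      Ideal.subset_span ⟨j, rfl⟩
    rw [hg] at this
    exact Ideal.mem_span_singleton.1 this
  have hinj : Function.Injective (algebraMap A L) := IsFractionRing.injective A L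
  by_cases hg0 : g = 0
  · exfalso
    have h0 : ∀ j, p j = 0 := by
      intro j
      have := hdvd j
      rw [hg0, zero_dvd_iff] at this
      exact (Polynomial.map_eq_zero_iff hinj).1 this
    have := h X (fun j => by rw [h0 j]; exact dvd_zero _)
    exact Polynomial.not_isUnit_X this
  obtain ⟨b, hb1, hb⟩ := IsLocalization.integerNormalization_spec (nonZeroDivisors A) g
  set g0 := IsLocalization.integerNormalization (nonZeroDivisors A) g with hg0def
  have hb0 : algebraMap A L b ≠ 0 := by
    rw [Ne, map_eq_zero_iff _ hinj]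
    exact nonZeroDivisors.ne_zero hb1
  have hbg : b • g = C (algebraMap A L b) * g := by
    rw [← Polynomial.smul_eq_C_mul, algebraMap_smul]
  have hg00 : g0 ≠ 0 := by
    intro h0
    rw [h0, Polynomial.map_zero, hbg] at hb
    exact (mul_ne_zero (by simpa using hb0) hg0) hb.symm
  have hcont : algebraMap A L g0.content ≠ 0 := by
    rw [Ne, map_eq_zero_iff _ hinj, Polynomial.content_eq_zero_iff]
    exact hg00
  have hmap : g0.map (algebraMap A L) = C (algebraMap A L g0.content) *
      g0.primPart.map (algebraMap A L) := by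
    conv_lhs => rw [g0.eq_C_content_mul_primPart]
    rw [Polynomial.map_mul, Polynomial.map_C]
  -- `g ~ map (primPart g0)`
  have hass : g0.primPart.map (algebraMap A L) ∣ g := by
    refine ⟨C (algebraMap A L g0.content / algebraMap A L b), ?_⟩
    have h1 : C (algebraMap A L b) * g = C (algebraMap A L g0.content) *
      g0.primPart.map (algebraMap A L) := by rw [← hbg, ← hb, hmap]
    have h2 : C (algebraMap A L b) ≠ 0 := by simpa using hb0
    apply mul_left_cancel₀ h2
    rw [h1, ← mul_assoc, mul_comm (C (algebraMap A L b)) _, mul_assoc, ← C_mul,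
      mul_div_cancel₀ _ hb0, mul_comm]
  have hu : IsUnit g0.primPart := by
    refine h _ fun j => ?_
    exact (Polynomial.isPrimitive_primPart g0).dvd_of_fraction_map_dvd_fraction_map (K := L)
      (hass.trans (hdvd j))
  have hgu : IsUnit g := by
    have h1 : IsUnit (g0.primPart.map (algebraMap A L)) := by
      have := hu.map (Polynomial.mapRingHom (algebraMap A L))
      simpa using this
    have h3 : C (algebraMap A L b) * g = C (algebraMap A L g0.content) *
      g0.primPart.map (algebraMap A L) := by rw [← hbg, ← hb, hmap]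
    have h4 : IsUnit (C (algebraMap A L b) * g) := by
      rw [h3]
      exact (Polynomial.isUnit_C.2 (IsUnit.mk0 _ hcont)).mul h1
    exact isUnit_of_mul_isUnit_right h4
  rw [hg]
  exact Ideal.span_singleton_eq_top.2 hgu

attribute [local instance] Polynomial.algebra Polynomial.isLocalization in
theorem elim {ι : Type} [Fintype ι] (p : ι → A[X]) (h : ∀ q, (∀ j, q ∣ p j) → IsUnit q) :
    ∃ R : A, R ≠ 0 ∧ ∃ a : ι → A[X], C R = ∑ j, a j * p j := by
  classical
  set L := FractionRing A
  have htop := span_top p h
  have h1 : (1 : L[X]) ∈ Ideal.span (Set.range fun j => (p j).map (algebraMap A L)) := by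
    rw [htop]; trivial
  obtain ⟨c, hc⟩ := (Ideal.mem_span_range_iff_exists_fun).1 h1
  have hinj : Function.Injective (algebraMap A L) := IsFractionRing.injective A L
  -- clear denominators
  obtain ⟨b, hb⟩ := IsLocalization.exist_integer_multiples (Submonoid.map C (nonZeroDivisors A))
    (Finset.univ : Finset ι) c
  choose a ha using fun j => hb j (Finset.mem_univ j)
  obtain ⟨_, ⟨R, hR, rfl⟩⟩ := b
  have hR0 : R ≠ 0 := nonZeroDivisors.ne_zero hR
  refine ⟨R, hR0, a, ?_⟩
  apply Polynomial.map_injective _ hinj
  rw [Polynomial.map_sum]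
  have h2 : ∀ j, (a j).map (algebraMap A L) = (C R : A[X]) • c j := fun j => ha j
  simp only [Polynomial.map_mul, h2]
  rw [Polynomial.map_C]
  have h3 : ∀ j, (C R : A[X]) • c j * (p j).map (algebraMap A L) =
      C (algebraMap A L R) * (c j * (p j).map (algebraMap A L)) := by
    intro j
    rw [Algebra.smul_def]
    have : (algebraMap A[X] L[X]) (C R) = C (algebraMap A L R) := by
      rw [Polynomial.algebraMap_def]; simp
    rw [this]; ring
  rw [Finset.sum_congr rfl fun j _ => h3 j, ← Finset.mul_sum, hc, mul_one]

end elim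

/-! ## Families without common factor -/

open MvPolynomial

variable {K : Type} [Field K]

/-- A family of polynomials of degree `≤ D` in each variable whose multihomogenizations (of degree
`D` in each variable) have no common factor. -/
structure GoodF {n : ℕ} {ι : Type} (D : ℕ) (f : ι → MvPolynomial (Fin n) K) : Prop where
  deg : ∀ j i, degreeOf i (f j) ≤ D
  top : ∀ i, ∃ j, degreeOf i (f j) = D
  cop : ∀ p, (∀ j, p ∣ f j) → IsUnit p

/-- The family of the coefficients with respect to the first variable. -/
def cf {n : ℕ} {ι : Type} (D : ℕ) (f : ι → MvPolynomial (Fin (n + 1)) K) :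
    ι × Fin (D + 1) → MvPolynomial (Fin n) K :=
  fun jk => (finSuccEquiv K n (f jk.1)).coeff jk.2

theorem isUnit_of_finSuccEquiv {n : ℕ} {ι : Type} {D : ℕ} {f : ι → MvPolynomial (Fin (n + 1)) K}
    (hf : GoodF D f) (q : Polynomial (MvPolynomial (Fin n) K))
    (hq : ∀ j, q ∣ finSuccEquiv K n (f j)) : IsUnit q := by
  have h := hf.cop ((finSuccEquiv K n).symm q) (fun j => by
    have h1 := map_dvd (finSuccEquiv K n).symm (hq j)
    simpa using h1)
  have h2 := h.map (finSuccEquiv K n)
  simpa using h2

theorem GoodF.cf {n : ℕ} {ι : Type} {D : ℕ} {f : ι → MvPolynomial (Fin (n + 1)) K}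
    (hf : GoodF D f) : GoodF D (cf D f) := by
  classical
  refine ⟨fun jk i => (degreeOf_coeff_finSuccEquiv _ _ _).trans (hf.deg _ _), fun i => ?_,
    fun p hp => ?_⟩
  · obtain ⟨j, hj⟩ := hf.top i.succ
    rcases Nat.eq_zero_or_pos D with hD | hD
    · refine ⟨(j, 0), ?_⟩
      have h1 : degreeOf i (GC.cf D f (j, 0)) ≤ D :=
        (degreeOf_coeff_finSuccEquiv _ _ _).trans (hf.deg _ _)
      omega
    · -- a monomial of degree `D` in the variable `i.succ`
      have hne : f j ≠ 0 := by
        intro h0
        rw [h0, degreeOf_zero] at hj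
        omega
      have hne' : (f j).support.Nonempty := by
        rwa [Finset.nonempty_iff_ne_empty, Ne, MvPolynomial.support_eq_empty]
      obtain ⟨m, hm, hmD⟩ := Finset.exists_mem_eq_sup _ hne' (fun m : Fin (n + 1) →₀ ℕ => m i.succ)
      rw [← degreeOf_eq_sup, hj] at hmD
      have hm0 : m 0 ≤ D := by
        have h1 := hf.deg j 0
        rw [degreeOf_eq_sup] at h1
        exact (Finset.le_sup (f := fun m : Fin (n + 1) →₀ ℕ => m 0) hm).trans h1
      refine ⟨(j, ⟨m 0, Nat.lt_succ_of_le hm0⟩), ?_⟩
      refine le_antisymm ((degreeOf_coeff_finSuccEquiv _ _ _).trans (hf.deg _ _)) ?_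
      have h2 : m.tail ∈ ((finSuccEquiv K n (f j)).coeff (m 0)).support := by
        rw [mem_support_coeff_finSuccEquiv, Finsupp.cons_tail]
        exact hm
      rw [GC.cf, degreeOf_eq_sup]
      refine le_trans ?_ (Finset.le_sup (f := fun m : Fin n →₀ ℕ => m i) h2)
      rw [Finsupp.tail_apply]
      exact hmD.le
  · have h1 : IsUnit (Polynomial.C p) := by
      refine isUnit_of_finSuccEquiv hf _ fun j => ?_
      rw [Polynomial.C_dvd_iff_dvd_coeff]
      intro k
      rcases lt_or_ge k (D + 1) with hk | hk
      · exact hp (j, ⟨k, hk⟩)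
      · rw [Polynomial.coeff_eq_zero_of_natDegree_lt]
        · exact dvd_zero _
        · rw [natDegree_finSuccEquiv]
          have := hf.deg j 0
          omega
    exact Polynomial.isUnit_C.1 h1

/-- The reflected polynomials have no common factor either. -/
theorem isUnit_of_reflect {n : ℕ} {ι : Type} {D : ℕ} {f : ι → MvPolynomial (Fin (n + 1)) K}
    (hf : GoodF D f) (q : Polynomial (MvPolynomial (Fin n) K))
    (hq : ∀ j, q ∣ Polynomial.reflect D (finSuccEquiv K n (f j))) : IsUnit q := by
  classical
  have hne : ∀ j, finSuccEquiv K n (f j) = 0 ↔ f j = 0 := fun j =>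
    map_eq_zero_iff _ (finSuccEquiv K n).injective
  have hdeg : ∀ j, (finSuccEquiv K n (f j)).natDegree ≤ D := fun j => by
    rw [natDegree_finSuccEquiv]; exact hf.deg j 0
  -- some `f_j` has a nonzero coefficient of degree `D`
  obtain ⟨j₀, hj₀⟩ : ∃ j, (finSuccEquiv K n (f j)).coeff D ≠ 0 := by
    rcases Nat.eq_zero_or_pos D with hD | hD
    · by_contra hcon
      push Not at hcon
      have h0 : ∀ j, f j = 0 := by
        intro j
        have h1 : (finSuccEquiv K n (f j)).natDegree ≤ 0 := by rw [← hD]; exact hdeg j
        have h2 := hcon j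
        rw [hD] at h2
        rw [← hne j, Polynomial.eq_C_of_natDegree_le_zero h1, h2, Polynomial.C_0]
      have := hf.cop 0 fun j => by rw [h0 j]
      exact not_isUnit_zero this
    · obtain ⟨j, hj⟩ := hf.top 0
      refine ⟨j, ?_⟩
      have h0 : f j ≠ 0 := by
        intro h0
        rw [h0, degreeOf_zero] at hj
        omega
      have h1 : (finSuccEquiv K n (f j)).natDegree = D := by rw [natDegree_finSuccEquiv, hj]
      have h2 : (finSuccEquiv K n (f j)).leadingCoeff ≠ 0 := by
        rw [Ne, Polynomial.leadingCoeff_eq_zero, hne j]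
        exact h0
      rwa [Polynomial.leadingCoeff, h1] at h2
  have hq0 : q.coeff 0 ≠ 0 := by
    intro h0
    obtain ⟨s, hs⟩ := hq j₀
    have h1 : (Polynomial.reflect D (finSuccEquiv K n (f j₀))).coeff 0 = 0 := by
      rw [hs, Polynomial.mul_coeff_zero, h0, zero_mul]
    rw [Polynomial.coeff_reflect, Polynomial.revAt_le (Nat.zero_le D), Nat.sub_zero] at h1
    exact hj₀ h1
  have hqne : q ≠ 0 := by
    rintro rfl
    simp at hq0
  have hdvd : ∀ j, Polynomial.reflect q.natDegree q ∣ finSuccEquiv K n (f j) := by
    intro j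
    obtain ⟨s, hs⟩ := hq j
    rcases eq_or_ne s 0 with hs0 | hs0
    · rw [hs0, mul_zero, Polynomial.reflect_eq_zero_iff] at hs
      rw [hs]
      exact dvd_zero _
    · have h1 : (Polynomial.reflect D (finSuccEquiv K n (f j))).natDegree ≤ D := by
        refine (Polynomial.natDegree_reflect_le).trans ?_
        exact max_le le_rfl (hdeg j)
      rw [hs, Polynomial.natDegree_mul hqne hs0] at h1
      have h2 : finSuccEquiv K n (f j) = Polynomial.reflect (q.natDegree + (D - q.natDegree))
          (q * s) := by
        have h3 : q.natDegree + (D - q.natDegree) = D := by omega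
        rw [h3, ← hs, Polynomial.reflect_reflect]
      rw [h2, Polynomial.reflect_mul q s le_rfl (by omega)]
      exact dvd_mul_right _ _
  have hu := isUnit_of_finSuccEquiv hf _ hdvd
  obtain ⟨r, hr, hr'⟩ := Polynomial.isUnit_iff.1 hu
  have h4 : q = Polynomial.C r * Polynomial.X ^ q.natDegree := by
    have := congrArg (Polynomial.reflect q.natDegree) hr'
    rw [Polynomial.reflect_reflect, Polynomial.reflect_C] at this
    exact this.symm
  have h5 : q.natDegree = 0 := by
    by_contra hcon
    apply hq0
    rw [h4]
    simp [Polynomial.coeff_X_pow, Ne.symm hcon]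
  rw [h4, h5, pow_zero, mul_one]
  exact Polynomial.isUnit_C.2 hr

/-- Elimination of the first variable, in both charts. -/
theorem GoodF.elim {n : ℕ} {ι : Type} [Fintype ι] {D : ℕ}
    {f : ι → MvPolynomial (Fin (n + 1)) K} (hf : GoodF D f) :
    ∃ (R R' : MvPolynomial (Fin n) K) (a a' : ι → Polynomial (MvPolynomial (Fin n) K)),
      R ≠ 0 ∧ R' ≠ 0 ∧ Polynomial.C R = ∑ j, a j * finSuccEquiv K n (f j) ∧
      Polynomial.C R' = ∑ j, a' j * Polynomial.reflect D (finSuccEquiv K n (f j)) := by
  obtain ⟨R, hR, a, ha⟩ := GC.elim (fun j => finSuccEquiv K n (f j))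
    (fun q hq => isUnit_of_finSuccEquiv hf q hq)
  obtain ⟨R', hR', a', ha'⟩ := GC.elim (fun j => Polynomial.reflect D (finSuccEquiv K n (f j)))
    (fun q hq => isUnit_of_reflect hf q hq)
  exact ⟨R, R', a, a', hR, hR', ha, ha'⟩

end

end Pool.Agent.Helper29.GC
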