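import Pool.Agent.Helper29.GC.Loc
import Pool.Agent.Helper29.BL.Asm

/-!
# General centres: the chordal distance of two `x`-coordinates
-/

namespace Pool.Agent.Helper29.GC

open Pool.Agent.Helper29.BL Height Height.AdmissibleAbsValues WeierstrassCurve

set_option linter.unusedSectionVars false

noncomputable section

/-- the chordal distance -/
def ch {K : Type} [Field K] (v : AbsoluteValue K ℝ) (a b : K) : ℝ :=
  v (a - b) / (Mv v a * Mv v b)

section loc

variable {K : Type} [Field K] (v : AbsoluteValue K ℝ)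

lemma ch_comm (a b : K) : ch v a b = ch v b a := by
  rw [ch, ch, v.map_sub, mul_comm]

lemma ch_pos {a b : K} (h : a ≠ b) : 0 < ch v a b :=
  div_pos (v.pos (sub_ne_zero.2 h)) (mul_pos (Mv_pos v a) (Mv_pos v b))

lemma cst_mul_mul (s t X : ℝ) : cst v s * (cst v t * X) = cst v (s * t) * X := by
  rw [cst_mul]; ring

lemma Mv_mul_le (y z : K) : Mv v y * Mv v z ≤ cst v 2 * max 1 (max (v (y + z)) (v (y * z))) := by
  have hc := one_le_cst v (c := 2) (by norm_num)
  set m := max 1 (max (v (y + z)) (v (y * z))) with hm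
  have hm1 : 1 ≤ m := le_max_left _ _
  have hms : v (y + z) ≤ m := (le_max_left _ _).trans (le_max_right _ _)
  have hmp : v (y * z) ≤ m := (le_max_right _ _).trans (le_max_right _ _)
  have key : ∀ y z : K, v (y + z) ≤ m → v (y * z) ≤ m → v z ≤ v y →
      Mv v y * Mv v z ≤ cst v 2 * m := by
    intro y z hs hp hzy
    rcases le_or_gt (v z) 1 with hz | hz
    · have hMz : Mv v z = 1 := max_eq_left hz
      rw [hMz, mul_one]
      refine max_le (by nlinarith) ?_
      have e : y = (y + z) + (-z) := by ring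
      rw [e]
      refine abv_add_le v _ _ hs ?_
      rw [v.map_neg]
      exact hz.trans hm1
    · have hy : 1 < v y := lt_of_lt_of_le hz hzy
      have hMz : Mv v z = v z := max_eq_right hz.le
      have hMy : Mv v y = v y := max_eq_right hy.le
      rw [hMz, hMy, ← map_mul]
      nlinarith
  rcases le_total (v z) (v y) with h | h
  · exact key y z hms hmp h
  · rw [mul_comm (Mv v y)]
    exact key z y (by rw [add_comm]; exact hms) (by rw [mul_comm]; exact hmp) h

/-- Local comparison of the chordal distance with the group law (the easy direction). -/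
theorem chord_loc [DecidableEq K] (W : Affine K) (P Q : W.Point) (hP : P ≠ 0) (hQ : Q ≠ 0)
    (h1 : P ≠ Q) (h2 : P ≠ -Q) :
    ch v (xc P) (xc Q) ^ 2 * (Mv v (xc (P + Q)) * Mv v (xc (P - Q))) ≤
      cst v 32 * bet W v := by
  obtain ⟨hne, hT, hS⟩ := add K W P Q hP hQ h1 h2
  set a := xc P with ha
  set c := xc Q with hc
  set y := xc (P + Q) with hy
  set z := xc (P - Q) with hz
  set β := bet W v with hβ
  have hβ1 : 1 ≤ β := one_le_bet W v
  have hb2 : v W.b₂ ≤ β := (le_max_left _ _).trans (le_max_right _ _)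
  have hb4 : v W.b₄ ≤ β := (le_max_left _ _).trans ((le_max_right _ _).trans (le_max_right _ _))
  have hb6 : v W.b₆ ≤ β := (le_max_left _ _).trans ((le_max_right _ _).trans
    ((le_max_right _ _).trans (le_max_right _ _)))
  have hb8 : v W.b₈ ≤ β := (le_max_right _ _).trans ((le_max_right _ _).trans
    ((le_max_right _ _).trans (le_max_right _ _)))
  have hMa := one_le_Mv v a
  have hMc := one_le_Mv v c
  have hva : v a ≤ Mv v a := le_max_right _ _
  have hvc : v c ≤ Mv v c := le_max_right _ _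
  set Q2 := (Mv v a * Mv v c) ^ 2 with hQ2
  have hQ2pos : 0 < Q2 := by positivity
  have hMac1 : 1 ≤ Mv v a * Mv v c := by nlinarith
  have hcst : ∀ {t : ℝ}, 1 ≤ t → 1 ≤ cst v t := fun h => one_le_cst v h
  -- the three sizes
  have hva0 := v.nonneg a
  have hvc0 := v.nonneg c
  have hA : v (a * c) ≤ Mv v a * Mv v c := by
    rw [map_mul]; exact mul_le_mul hva hvc hvc0 (by linarith)
  have hAC : v (a + c) ≤ cst v 2 * (Mv v a * Mv v c) := by
    refine abv_add_le v _ _ ?_ ?_
    · nlinarith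
    · nlinarith
  have hU : v (Uf c a) ≤ cst v 4 * Q2 := by
    have h3 : v (a - c) ≤ cst v 2 * (Mv v a * Mv v c) := by
      rw [sub_eq_add_neg]
      refine abv_add_le v _ _ ?_ ?_
      · nlinarith
      · rw [v.map_neg]; nlinarith
    rw [Uf, map_pow]
    calc v (a - c) ^ 2 ≤ (cst v 2 * (Mv v a * Mv v c)) ^ 2 :=
          pow_le_pow_left₀ (v.nonneg _) h3 2
      _ = cst v 4 * Q2 := by
          rw [mul_pow, ← cst_pow, hQ2]; norm_num
  have hS' : v (Sf W c a) ≤ cst v 8 * (β * Q2) := by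
    have t1 : v ((a * c) ^ 2) ≤ cst v 2 * (β * Q2) := by
      rw [map_pow]
      have : v (a * c) ^ 2 ≤ Q2 := pow_le_pow_left₀ (v.nonneg _) hA 2
      have := hcst (t := 2) (by norm_num)
      nlinarith [mul_nonneg (sub_nonneg.2 hβ1) hQ2pos.le,
        mul_nonneg (sub_nonneg.2 this) (mul_pos (lt_of_lt_of_le one_pos hβ1) hQ2pos).le]
    have t2 : v (-(W.b₄ * (a * c))) ≤ cst v 2 * (β * Q2) := by
      rw [v.map_neg, map_mul]
      have q1 : v W.b₄ * v (a * c) ≤ β * Q2 := by
        refine mul_le_mul hb4 (hA.trans ?_) (v.nonneg _) (by linarith)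
        rw [hQ2]; nlinarith
      have := hcst (t := 2) (by norm_num)
      nlinarith [mul_nonneg (sub_nonneg.2 this) (mul_pos (lt_of_lt_of_le one_pos hβ1) hQ2pos).le]
    have t3 : v (-(W.b₆ * (a + c))) ≤ cst v 2 * (β * Q2) := by
      rw [v.map_neg, map_mul]
      have q1 : v W.b₆ * v (a + c) ≤ β * (cst v 2 * Q2) := by
        refine mul_le_mul hb6 (hAC.trans ?_) (v.nonneg _) (by linarith)
        have := hcst (t := 2) (by norm_num)
        refine mul_le_mul_of_nonneg_left ?_ (by linarith)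
        rw [hQ2]; nlinarith
      linarith
    have t4 : v (-W.b₈) ≤ cst v 2 * (β * Q2) := by
      rw [v.map_neg]
      have q0 : 1 ≤ Q2 := by rw [hQ2]; nlinarith
      have := hcst (t := 2) (by norm_num)
      nlinarith [mul_nonneg (sub_nonneg.2 hβ1) (sub_nonneg.2 q0),
        mul_nonneg (sub_nonneg.2 this) (mul_pos (lt_of_lt_of_le one_pos hβ1) hQ2pos).le]
    have e : Sf W c a = ((a * c) ^ 2 + -(W.b₄ * (a * c))) + (-(W.b₆ * (a + c)) + -W.b₈) := by
      unfold Sf; ring
    rw [e]
    have := abv_add_le v _ _ (abv_add_le v _ _ t1 t2) (abv_add_le v _ _ t3 t4)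
    rw [cst_mul_mul, cst_mul_mul] at this
    norm_num at this
    exact this
  have hT' : v (Tf W c a) ≤ cst v 16 * (β * Q2) := by
    have t1 : v (2 * (a + c) * (a * c)) ≤ cst v 4 * (β * Q2) := by
      rw [map_mul, map_mul]
      have q2 : v (2 : K) ≤ cst v 2 := by
        have := abv_add_le v (1 : K) 1 (B := 1) (by simp) (by simp)
        rw [mul_one] at this
        convert this using 2
        norm_num
      have q3 : v (a + c) * v (a * c) ≤ cst v 2 * Q2 := by
        have := mul_le_mul hAC hA (v.nonneg _)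
          (mul_nonneg (cst_pos v (by norm_num : (1 : ℝ) ≤ 2)).le (by linarith))
        refine this.trans (le_of_eq ?_)
        rw [hQ2]; ring
      have q4 : v (2 : K) * (v (a + c) * v (a * c)) ≤ cst v 2 * (cst v 2 * Q2) :=
        mul_le_mul q2 q3 (mul_nonneg (v.nonneg _) (v.nonneg _))
          (cst_pos v (by norm_num : (1 : ℝ) ≤ 2)).le
      have e4 : cst v 2 * (cst v 2 * Q2) = cst v 4 * Q2 := by
        rw [← mul_assoc, ← cst_mul]; norm_num
      rw [e4] at q4
      have := cst_pos v (by norm_num : (1 : ℝ) ≤ 4)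
      have q5 : cst v 4 * Q2 ≤ cst v 4 * (β * Q2) :=
        mul_le_mul_of_nonneg_left (by nlinarith) this.le
      linarith
    have t2 : v (W.b₂ * (a * c)) ≤ cst v 4 * (β * Q2) := by
      rw [map_mul]
      have q1 : v W.b₂ * v (a * c) ≤ β * Q2 := by
        refine mul_le_mul hb2 (hA.trans ?_) (v.nonneg _) (by linarith)
        rw [hQ2]; nlinarith
      have := hcst (t := 4) (by norm_num)
      nlinarith [mul_nonneg (sub_nonneg.2 this) (mul_pos (lt_of_lt_of_le one_pos hβ1) hQ2pos).le]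
    have t3 : v (W.b₄ * (a + c)) ≤ cst v 4 * (β * Q2) := by
      rw [map_mul]
      have q1 : v W.b₄ * v (a + c) ≤ β * (cst v 2 * Q2) := by
        refine mul_le_mul hb4 (hAC.trans ?_) (v.nonneg _) (by linarith)
        have := hcst (t := 2) (by norm_num)
        refine mul_le_mul_of_nonneg_left ?_ (by linarith)
        rw [hQ2]; nlinarith
      have := cst_mono v (by norm_num : (2 : ℝ) ≤ 4)
      nlinarith [mul_nonneg (sub_nonneg.2 this) (mul_pos (lt_of_lt_of_le one_pos hβ1) hQ2pos).le]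
    have t4 : v W.b₆ ≤ cst v 4 * (β * Q2) := by
      have q0 : 1 ≤ Q2 := by rw [hQ2]; nlinarith
      have := hcst (t := 4) (by norm_num)
      nlinarith [mul_nonneg (sub_nonneg.2 hβ1) (sub_nonneg.2 q0),
        mul_nonneg (sub_nonneg.2 this) (mul_pos (lt_of_lt_of_le one_pos hβ1) hQ2pos).le]
    have e : Tf W c a = (2 * (a + c) * (a * c) + W.b₂ * (a * c)) + (W.b₄ * (a + c) + W.b₆) := by
      unfold Tf; ring
    rw [e]
    have := abv_add_le v _ _ (abv_add_le v _ _ t1 t2) (abv_add_le v _ _ t3 t4)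
    rw [cst_mul_mul, cst_mul_mul] at this
    norm_num at this
    exact this
  -- conclusion
  have hUeq : v (Uf c a) = v (a - c) ^ 2 := by rw [Uf, map_pow]
  have hch : ch v a c ^ 2 = v (Uf c a) / Q2 := by
    rw [ch, div_pow, hUeq]
  have hmain : v (Uf c a) * max 1 (max (v (y + z)) (v (y * z))) ≤ cst v 16 * (β * Q2) := by
    rcases max_cases (1 : ℝ) (max (v (y + z)) (v (y * z))) with ⟨h3, -⟩ | ⟨h3, -⟩
    · rw [h3, mul_one]
      have q1 := cst_mono v (by norm_num : (4 : ℝ) ≤ 16)
      have q2 : cst v 4 * Q2 ≤ cst v 16 * Q2 := mul_le_mul_of_nonneg_right q1 hQ2pos.le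
      have q3 : cst v 16 * Q2 ≤ cst v 16 * (β * Q2) :=
        mul_le_mul_of_nonneg_left (by nlinarith) (cst_pos v (by norm_num : (1 : ℝ) ≤ 16)).le
      linarith
    · rw [h3]
      rcases max_cases (v (y + z)) (v (y * z)) with ⟨h4, -⟩ | ⟨h4, -⟩
      · rw [h4, ← map_mul, hT]
        exact hT'
      · rw [h4, ← map_mul, hS]
        refine hS'.trans ?_
        exact mul_le_mul_of_nonneg_right (cst_mono v (by norm_num))
          (mul_pos (lt_of_lt_of_le one_pos hβ1) hQ2pos).le
  have hM := Mv_mul_le v y z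
  rw [hch, div_mul_eq_mul_div, div_le_iff₀ hQ2pos]
  calc v (Uf c a) * (Mv v y * Mv v z)
      ≤ v (Uf c a) * (cst v 2 * max 1 (max (v (y + z)) (v (y * z)))) :=
        mul_le_mul_of_nonneg_left hM (v.nonneg _)
    _ = cst v 2 * (v (Uf c a) * max 1 (max (v (y + z)) (v (y * z)))) := by ring
    _ ≤ cst v 2 * (cst v 16 * (β * Q2)) :=
        mul_le_mul_of_nonneg_left hmain (cst_pos v (by norm_num : (1 : ℝ) ≤ 2)).le
    _ = cst v 32 * β * Q2 := by
        rw [← mul_assoc, ← cst_mul]; norm_num; ring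

end loc

/-- The excess of `-log` of the chordal distance over the local heights of `P ± Q`. -/
def exc {K : Type} [Field K] [DecidableEq K] {W : Affine K} (P Q : W.Point)
    (v : AbsoluteValue K ℝ) : ℝ :=
  -Real.log (ch v (xc P) (xc Q)) - (Real.log (Mv v (xc (P + Q))) +
    Real.log (Mv v (xc (P - Q)))) / 2 + (Real.log (cst v 32) + Real.log (bet W v)) / 2

theorem exc_nonneg {K : Type} [Field K] [DecidableEq K] {W : Affine K} (P Q : W.Point)
    (v : AbsoluteValue K ℝ) (hP : P ≠ 0) (hQ : Q ≠ 0) (h1 : P ≠ Q) (h2 : P ≠ -Q) :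
    0 ≤ exc P Q v := by
  have hne : xc P ≠ xc Q := (add K W P Q hP hQ h1 h2).1
  have h := chord_loc v W P Q hP hQ h1 h2
  have hc := ch_pos v hne
  have h3 := Real.log_le_log (mul_pos (pow_pos hc 2) (mul_pos (Mv_pos v _) (Mv_pos v _))) h
  rw [Real.log_mul (pow_pos hc 2).ne' (mul_pos (Mv_pos v _) (Mv_pos v _)).ne',
    Real.log_mul (Mv_pos v _).ne' (Mv_pos v _).ne', Real.log_pow,
    Real.log_mul (cst_pos v (by norm_num)).ne' (bet_pos W v).ne'] at h3
  unfold exc
  push_cast at h3
  linarith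

section glob

variable {K : Type} [Field K] [NumberField K] [DecidableEq K]

lemma log_ch {v : AbsoluteValue K ℝ} {a b : K} (h : a ≠ b) :
    Real.log (ch v a b) = Real.log (v (a - b)) - (Real.log (Mv v a) + Real.log (Mv v b)) := by
  rw [ch, Real.log_div (v.pos (sub_ne_zero.2 h)).ne' (mul_pos (Mv_pos v a) (Mv_pos v b)).ne',
    Real.log_mul (Mv_pos v a).ne' (Mv_pos v b).ne']

lemma FS_log_ch {a b : K} (h : a ≠ b) : FS (fun v => Real.log (ch v a b)) := by
  have : FS (fun v => Real.log (v (a - b)) - (Real.log (Mv v a) + Real.log (Mv v b))) :=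
    (FS_log (sub_ne_zero.2 h)).sub ((FS_log_Mv a).add (FS_log_Mv b))
  exact this.mono fun v _ hv => by rw [log_ch h]; exact hv

lemma PS_log_ch {a b : K} (h : a ≠ b) :
    PS (fun v => Real.log (ch v a b)) = - (logHeight₁ a + logHeight₁ b) := by
  have e : (fun v : AbsoluteValue K ℝ => Real.log (ch v a b)) =
      fun v => Real.log (v (a - b)) - (Real.log (Mv v a) + Real.log (Mv v b)) := by
    funext v; exact log_ch h
  rw [e, PS_sub (FS_log (sub_ne_zero.2 h)) ((FS_log_Mv a).add (FS_log_Mv b)),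
    PS_log (sub_ne_zero.2 h), PS_add (FS_log_Mv a) (FS_log_Mv b), PS_log_Mv, PS_log_Mv]
  ring

theorem FS_exc {W : Affine K} (P Q : W.Point) (h : xc P ≠ xc Q) : FS (exc P Q) := by
  have h1 := ((FS_log_ch h).neg.sub (((FS_log_Mv (xc (P + Q))).add
    (FS_log_Mv (xc (P - Q)))).const_mul (1 / 2))).add
      (((FS_log_cst (K := K) 32).add (FS_log_bet W)).const_mul (1 / 2))
  refine h1.mono fun v _ hv => ?_
  rw [exc, ← hv]
  ring

/-- The total excess is bounded. -/
theorem PS_exc (W : Affine K) [W.IsElliptic] : ∃ C : ℝ, 0 ≤ C ∧ ∀ P Q : W.Point, P ≠ 0 → Q ≠ 0 →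
    P ≠ Q → P ≠ -Q → PS (exc P Q) ≤ C := by
  obtain ⟨C, hC⟩ := th_par K W
  refine ⟨|C| / 2 + |PS (K := K) (fun v => Real.log (cst v 32)) +
    PS (fun v => Real.log (bet W v))| / 2, by positivity, ?_⟩
  intro P Q hP hQ h1 h2
  have hne : xc P ≠ xc Q := (add K W P Q hP hQ h1 h2).1
  have e : (exc P Q) = fun v => (-Real.log (ch v (xc P) (xc Q)) -
      (1 / 2) * (Real.log (Mv v (xc (P + Q))) + Real.log (Mv v (xc (P - Q))))) +
        (1 / 2) * (Real.log (cst v 32) + Real.log (bet W v)) := by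
    funext v; rw [exc]; ring
  rw [e, PS_add ((FS_log_ch hne).neg.sub (((FS_log_Mv (xc (P + Q))).add
    (FS_log_Mv (xc (P - Q)))).const_mul (1 / 2)))
      (((FS_log_cst (K := K) 32).add (FS_log_bet W)).const_mul (1 / 2)),
    PS_sub (FS_log_ch hne).neg (((FS_log_Mv (xc (P + Q))).add
      (FS_log_Mv (xc (P - Q)))).const_mul (1 / 2)), PS_neg, PS_log_ch hne, PS_const_mul,
    PS_const_mul, PS_add (FS_log_Mv _) (FS_log_Mv _), PS_log_Mv, PS_log_Mv,
    PS_add (FS_log_cst (K := K) 32) (FS_log_bet W)]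
  have h3 := (abs_le.1 (hC P Q)).1
  have h4 := le_abs_self C
  have h5 := le_abs_self (PS (K := K) (fun v => Real.log (cst v 32)) +
    PS (fun v => Real.log (bet W v)))
  unfold hx at h3
  linarith

end glob

end

end Pool.Agent.Helper29.GC
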