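import Pool.Agent.Helper29.BL.AsmG

/-!
# General centres: counting points of a finitely generated subgroup of an elliptic curve
-/

namespace Pool.Agent.Helper29.GC

open Pool.Agent.Helper29.BL Height Height.AdmissibleAbsValues WeierstrassCurve

set_option linter.unusedSectionVars false

noncomputable section

variable {K : Type} [Field K] [NumberField K] [DecidableEq K]

/-- the number of points of height `≤ T` -/
def cnt {W : Affine K} (Γ : AddSubgroup W.Point) (T : ℝ) : ℝ :=
  ({P : W.Point | P ∈ Γ ∧ hx P ≤ T}.ncard : ℝ)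

lemma ptFin {W : Affine K} (Γ : AddSubgroup W.Point) (T : ℝ) :
    {P : W.Point | P ∈ Γ ∧ hx P ≤ T}.Finite :=
  ((th_nor K W).1 T).subset fun _ h => h.2

/-- the finite set of points of height `≤ T` -/
def pts {W : Affine K} (Γ : AddSubgroup W.Point) (T : ℝ) : Finset W.Point := (ptFin Γ T).toFinset

lemma mem_pts {W : Affine K} {Γ : AddSubgroup W.Point} {T : ℝ} {P : W.Point} :
    P ∈ pts Γ T ↔ P ∈ Γ ∧ hx P ≤ T := by
  rw [pts, Set.Finite.mem_toFinset]; rfl

lemma cnt_eq {W : Affine K} (Γ : AddSubgroup W.Point) (T : ℝ) : cnt Γ T = ((pts Γ T).card : ℝ) := by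
  rw [cnt, pts, Set.ncard_eq_toFinset_card _ (ptFin Γ T)]

lemma cnt_mono {W : Affine K} (Γ : AddSubgroup W.Point) {T T' : ℝ} (h : T ≤ T') :
    cnt Γ T ≤ cnt Γ T' := by
  rw [cnt_eq, cnt_eq]
  exact_mod_cast Finset.card_le_card fun P hP => mem_pts.2 ⟨(mem_pts.1 hP).1, (mem_pts.1 hP).2.trans h⟩

lemma cnt_nonneg {W : Affine K} (Γ : AddSubgroup W.Point) (T : ℝ) : 0 ≤ cnt Γ T := Nat.cast_nonneg _

lemma one_le_cnt {W : Affine K} (Γ : AddSubgroup W.Point) {T : ℝ} (hT : 0 ≤ T) : 1 ≤ cnt Γ T := by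
  have h : (0 : W.Point) ∈ pts Γ T := by
    rw [mem_pts]
    refine ⟨Γ.zero_mem, ?_⟩
    show logHeight₁ (xc (0 : W.Point)) ≤ T
    rw [xc_zero, logHeight₁_zero]
    exact hT
  have h1 : 1 ≤ (pts Γ T).card := Finset.card_pos.2 ⟨_, h⟩
  rw [cnt_eq]
  exact_mod_cast h1

/-- Doubling. -/
theorem cnt_doubling (W : Affine K) [W.IsElliptic] (Γ : AddSubgroup W.Point) (hΓ : Γ.FG)
    (m : ℝ) (hm : 1 ≤ m) : ∃ C : ℝ, 1 ≤ C ∧ ∀ T : ℝ, 1 ≤ T → cnt Γ T ≤ C * cnt Γ (T / m) := by
  classical
  obtain ⟨H, c₀, hH, hPk⟩ := th_ghe K W Γ hΓ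
  have hc₀ : 0 ≤ c₀ := (abs_nonneg _).trans (hH.near 0)
  obtain ⟨N, hN⟩ := hPk (4 * √(2 * m)) (by
    have : 1 ≤ √(2 * m) := Real.one_le_sqrt.2 (by linarith)
    linarith)
  set T₂ := max 1 (max c₀ (2 * m * c₀)) with hT₂
  refine ⟨max 1 (N + cnt Γ T₂), le_max_left _ _, fun T hT => ?_⟩
  have hmpos : 0 < m := by linarith
  have h1 : 1 ≤ cnt Γ (T / m) := one_le_cnt Γ (by positivity)
  have hN0 : (0 : ℝ) ≤ N := Nat.cast_nonneg _
  have hkey : cnt Γ T ≤ (N + cnt Γ T₂) * cnt Γ (T / m) := by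
    rcases lt_or_ge T T₂ with h | h
    · have h2 := cnt_mono Γ h.le
      have h3 := cnt_nonneg Γ T₂
      nlinarith
    · have hT1 : 0 < T := by linarith
      have hcT : c₀ ≤ T := (le_max_left _ _).trans ((le_max_right _ _).trans h)
      have hcm : 2 * m * c₀ ≤ T := (le_max_right _ _).trans ((le_max_right _ _).trans h)
      obtain ⟨g, hg⟩ := hN (pts Γ T) (fun P hP => (mem_pts.1 hP).1) (√(T / (4 * m)))
        (Real.sqrt_pos.2 (by positivity)) (by
          intro P hP Q hQ
          have h3 := hH.tri P (-Q)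
          rw [← sub_eq_add_neg, hH.neg Q] at h3
          have hb : ∀ P ∈ pts Γ T, √(H P) ≤ √(2 * T) := fun P hP => Real.sqrt_le_sqrt (by
            have := (abs_le.1 (hH.near P)).2
            have := (mem_pts.1 hP).2
            linarith)
          have e1 : 4 * √(2 * m) * √(T / (4 * m)) = 2 * √(2 * T) := by
            rw [mul_assoc, ← Real.sqrt_mul (by positivity)]
            have e2 : 2 * m * (T / (4 * m)) = (2 * T) / 2 ^ 2 := by field_simp; norm_num
            rw [e2, Real.sqrt_div (by positivity), Real.sqrt_sq (by norm_num)]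
            ring
          rw [e1]
          linarith [hb P hP, hb Q hQ])
      have hfib : ∀ i : Fin N, (((pts Γ T).filter fun P => g P = i).card : ℝ) ≤ cnt Γ (T / m) := by
        intro i
        rcases ((pts Γ T).filter fun P => g P = i).eq_empty_or_nonempty with h0 | ⟨P₀, hP₀⟩
        · rw [h0]; simpa using cnt_nonneg Γ (T / m)
        · rw [cnt_eq]
          have h2 : ((pts Γ T).filter fun P => g P = i).card ≤ (pts Γ (T / m)).card := by
            refine Finset.card_le_card_of_injOn (fun P => P - P₀) ?_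
              (fun P _ Q _ hPQ => sub_left_injective hPQ)
            intro P hP
            obtain ⟨hP1, hP2⟩ := Finset.mem_filter.1 (Finset.mem_coe.1 hP)
            obtain ⟨hP3, hP4⟩ := Finset.mem_filter.1 hP₀
            refine Finset.mem_coe.2 (mem_pts.2 ⟨Γ.sub_mem (mem_pts.1 hP1).1 (mem_pts.1 hP3).1, ?_⟩)
            have h5 := hg P hP1 P₀ hP3 (hP2.trans hP4.symm)
            have h6 : H (P - P₀) ≤ T / (4 * m) := (Real.sqrt_le_sqrt_iff (by positivity)).1 h5
            have h7 := (abs_le.1 (hH.near (P - P₀))).1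
            have h8 : c₀ ≤ T / (2 * m) := by
              rw [le_div_iff₀ (by positivity)]; linarith
            have h9 : T / (4 * m) + T / (2 * m) ≤ T / m := by
              have e : T / (4 * m) + T / (2 * m) = 3 / 4 * (T / m) := by field_simp; norm_num
              rw [e]
              have : 0 < T / m := by positivity
              linarith
            show hx (P - P₀) ≤ T / m
            linarith
          exact_mod_cast h2
      have hcard : (pts Γ T).card = ∑ i : Fin N, ((pts Γ T).filter fun P => g P = i).card :=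
        Finset.card_eq_sum_card_fiberwise fun z _ => Finset.mem_coe.2 (Finset.mem_univ _)
      have h2 : cnt Γ T ≤ N * cnt Γ (T / m) := by
        rw [cnt_eq, hcard]
        push_cast
        calc ∑ i : Fin N, (((pts Γ T).filter fun P => g P = i).card : ℝ) ≤
              ∑ _i : Fin N, cnt Γ (T / m) := Finset.sum_le_sum fun i _ => hfib i
          _ = N * cnt Γ (T / m) := by simp
      have h3 := cnt_nonneg Γ T₂
      nlinarith
  refine hkey.trans ?_
  exact mul_le_mul_of_nonneg_right (le_max_right _ _) (by linarith)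

/-- Growth. -/
theorem cnt_growth (W : Affine K) [W.IsElliptic] (Γ : AddSubgroup W.Point) (hΓ : Γ.FG)
    (hinf : Infinite Γ) : ∃ T₁ : ℝ, 1 ≤ T₁ ∧ ∀ T : ℝ, T₁ ≤ T → 2 * cnt Γ (T / 16) ≤ cnt Γ T := by
  classical
  obtain ⟨H, c₀, hH, -⟩ := th_ghe K W Γ hΓ
  have hc₀ : 0 ≤ c₀ := (abs_nonneg _).trans (hH.near 0)
  -- a point of positive height
  obtain ⟨P₀, hP₀, hHP⟩ : ∃ P ∈ Γ, 0 < H P := by
    by_contra hcon
    push Not at hcon
    have hfin : {P : W.Point | hx P ≤ c₀}.Finite := (th_nor K W).1 c₀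
    have : (Γ : Set W.Point).Finite := hfin.subset fun P hP => by
      have h1 := hcon P hP
      have h2 := (abs_le.1 (hH.near P)).1
      show hx P ≤ c₀
      linarith
    exact hinf.not_finite this
  set p := √(H P₀) with hp
  have hppos : 0 < p := Real.sqrt_pos.2 hHP
  refine ⟨max 1 (max (200 * c₀) (64 * p ^ 2)), le_max_left _ _, fun T hT => ?_⟩
  have hT1 : 1 ≤ T := (le_max_left _ _).trans hT
  have hcT : 200 * c₀ ≤ T := (le_max_left _ _).trans ((le_max_right _ _).trans hT)
  have hpT : 64 * p ^ 2 ≤ T := (le_max_right _ _).trans ((le_max_right _ _).trans hT)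
  have hTpos : 0 < T := by linarith
  set s := √T with hs
  have hs2 : s ^ 2 = T := Real.sq_sqrt hTpos.le
  have hspos : 0 < s := Real.sqrt_pos.2 hTpos
  have hps : 8 * p ≤ s := by
    nlinarith
  -- the multiple
  obtain ⟨k, hk1, hk2⟩ : ∃ k : ℕ, (11 / 20 : ℝ) * s < k * p ∧ k * p ≤ 7 / 10 * s := by
    refine ⟨⌊(7 / 10 * s) / p⌋₊, ?_, ?_⟩
    · have h1 := Nat.lt_floor_add_one ((7 / 10 * s) / p)
      rw [div_lt_iff₀ hppos] at h1
      nlinarith
    · have h1 := Nat.floor_le (show 0 ≤ (7 / 10 * s) / p by positivity)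
      rw [le_div_iff₀ hppos] at h1
      exact h1
  have hkP : √(H (k • P₀)) = k * p := by
    rw [hH.mul, Real.sqrt_mul (by positivity), Real.sqrt_sq (Nat.cast_nonneg _)]
  -- size of the points of the small ball
  have hsmall : ∀ P ∈ pts Γ (T / 16), √(H P) ≤ 27 / 100 * s := by
    intro P hP
    have h1 := (abs_le.1 (hH.near P)).2
    have h2 := (mem_pts.1 hP).2
    rw [Real.sqrt_le_left (by positivity)]
    nlinarith
  have hdisj : Disjoint (pts Γ (T / 16)) ((pts Γ (T / 16)).image fun P => P + k • P₀) := by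
    rw [Finset.disjoint_left]
    intro Q hQ hQ'
    obtain ⟨P, hP, rfl⟩ := Finset.mem_image.1 hQ'
    have h1 := hsmall _ hQ
    have h2 := hsmall _ hP
    have h3 := hH.tri (P + k • P₀) (-P)
    rw [hH.neg, add_neg_cancel_comm, hkP] at h3
    nlinarith
  have hsub : (pts Γ (T / 16)) ∪ ((pts Γ (T / 16)).image fun P => P + k • P₀) ⊆ pts Γ T := by
    intro Q hQ
    rcases Finset.mem_union.1 hQ with h | h
    · exact mem_pts.2 ⟨(mem_pts.1 h).1, (mem_pts.1 h).2.trans (by linarith)⟩
    · obtain ⟨P, hP, rfl⟩ := Finset.mem_image.1 h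
      refine mem_pts.2 ⟨Γ.add_mem (mem_pts.1 hP).1 (Γ.nsmul_mem hP₀ k), ?_⟩
      have h1 := hsmall _ hP
      have h2 := hH.tri P (k • P₀)
      rw [hkP] at h2
      have h3 : √(H (P + k • P₀)) ≤ 97 / 100 * s := by linarith
      have h4 : H (P + k • P₀) ≤ (97 / 100 * s) ^ 2 := by
        rw [← Real.sqrt_le_left (by positivity)]
        exact h3
      have h5 := (abs_le.1 (hH.near (P + k • P₀))).1
      nlinarith
  have hc := Finset.card_le_card hsub
  rw [Finset.card_union_of_disjoint hdisj, Finset.card_image_of_injective _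
    (add_left_injective (k • P₀))] at hc
  rw [cnt_eq, cnt_eq]
  have : (((pts Γ (T / 16)).card + (pts Γ (T / 16)).card : ℕ) : ℝ) ≤ ((pts Γ T).card : ℝ) := by
    exact_mod_cast hc
  push_cast at this
  linarith

/-- Lower bound in terms of the rank. -/
theorem cnt_lower (W : Affine K) [W.IsElliptic] (Γ : AddSubgroup W.Point) (hΓ : Γ.FG) (r : ℕ)
    (hr : r ≤ Module.finrank ℤ Γ) : ∃ c : ℝ, 0 < c ∧ ∀ T : ℝ, 1 ≤ T → c * T ^ ((r : ℝ) / 2) ≤ cnt Γ T := by
  classical
  obtain ⟨H, c₀, hH, -⟩ := th_ghe K W Γ hΓ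
  have hc₀ : 0 ≤ c₀ := (abs_nonneg _).trans (hH.near 0)
  obtain ⟨b, hb⟩ := exists_linearIndependent_of_le_finrank hr
  set s := (∑ i, √(H (b i))) + 1 with hs
  have hspos : 0 < s := by
    have : 0 ≤ ∑ i, √(H (b i)) := Finset.sum_nonneg fun _ _ => Real.sqrt_nonneg _
    linarith
  have hs1 : 1 ≤ s := by
    have : 0 ≤ ∑ i, √(H (b i)) := Finset.sum_nonneg fun _ _ => Real.sqrt_nonneg _
    linarith
  -- the points
  have hpt : ∀ N : ℕ, ∀ T : ℝ, (N : ℝ) ^ 2 * s ^ 2 + c₀ ≤ T → (((N + 1) ^ r : ℕ) : ℝ) ≤ cnt Γ T := by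
    intro N T hNT
    rw [cnt_eq]
    have h1 : (Fintype.card (Fin r → Fin (N + 1))) ≤ (pts Γ T).card := by
      rw [← Finset.card_univ]
      refine Finset.card_le_card_of_injOn
        (fun a : Fin r → Fin (N + 1) => (((∑ i, (a i : ℕ) • b i : Γ)) : W.Point)) ?_ ?_
      · intro a _
        refine Finset.mem_coe.2 (mem_pts.2 ⟨(∑ i, (a i : ℕ) • b i : Γ).2, ?_⟩)
        have h2 : √(H ((∑ i, (a i : ℕ) • b i : Γ) : W.Point)) ≤ N * s := by
          have h3 : ∀ S : Finset (Fin r), √(H ((∑ i ∈ S, (a i : ℕ) • b i : Γ) : W.Point)) ≤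
              √(H 0) + ∑ i ∈ S, (N : ℝ) * √(H (b i)) := by
            intro S
            induction S using Finset.induction_on with
            | empty => simp
            | insert i S hi ih =>
              rw [Finset.sum_insert hi, Finset.sum_insert hi, AddSubgroup.coe_add]
              refine (hH.tri _ _).trans ?_
              have h4 : √(H (((a i : ℕ) • b i : Γ) : W.Point)) ≤ (N : ℝ) * √(H (b i)) := by
                rw [AddSubgroup.coe_nsmul, hH.mul, Real.sqrt_mul (by positivity),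
                  Real.sqrt_sq (Nat.cast_nonneg _)]
                refine mul_le_mul_of_nonneg_right ?_ (Real.sqrt_nonneg _)
                exact_mod_cast Nat.le_of_lt_succ (a i).2
              linarith
          have h5 : H (0 : W.Point) = 0 := by
            have := hH.mul 0 (0 : W.Point)
            simpa using this
          have h6 := h3 Finset.univ
          rw [h5, Real.sqrt_zero, zero_add, ← Finset.mul_sum] at h6
          refine h6.trans (mul_le_mul_of_nonneg_left ?_ (Nat.cast_nonneg _))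
          linarith
        have h7 : H ((∑ i, (a i : ℕ) • b i : Γ) : W.Point) ≤ (N * s) ^ 2 := by
          rw [← Real.sqrt_le_left (by positivity)]
          exact h2
        have h8 := (abs_le.1 (hH.near ((∑ i, (a i : ℕ) • b i : Γ) : W.Point))).1
        nlinarith
      · intro a _ a' _ haa
        have h2 : (∑ i, (a i : ℕ) • b i : Γ) = ∑ i, (a' i : ℕ) • b i := Subtype.ext haa
        have h3 : ∑ i, ((a i : ℤ) - (a' i : ℤ)) • b i = 0 := by
          simp only [sub_smul, Finset.sum_sub_distrib]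
          rw [sub_eq_zero]
          simpa [natCast_zsmul] using h2
        have h4 := (Fintype.linearIndependent_iff.1 hb) _ h3
        funext i
        have := h4 i
        apply Fin.ext
        omega
    rw [Fintype.card_fun, Fintype.card_fin, Fintype.card_fin] at h1
    exact_mod_cast h1
  set T₃ := max 1 (2 * c₀) with hT₃
  have hT₃1 : 1 ≤ T₃ := le_max_left _ _
  have hT₃pos : 0 < T₃ := by linarith
  refine ⟨min (1 / T₃ ^ ((r : ℝ) / 2)) ((1 / (2 * s ^ 2)) ^ ((r : ℝ) / 2)), by positivity, ?_⟩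
  intro T hT
  have hTpos : 0 < T := by linarith
  rcases lt_or_ge T T₃ with h | h
  · have h1 : 1 ≤ cnt Γ T := one_le_cnt Γ hTpos.le
    have h2 : T ^ ((r : ℝ) / 2) ≤ T₃ ^ ((r : ℝ) / 2) :=
      Real.rpow_le_rpow hTpos.le h.le (by positivity)
    calc _ ≤ 1 / T₃ ^ ((r : ℝ) / 2) * T ^ ((r : ℝ) / 2) :=
          mul_le_mul_of_nonneg_right (min_le_left _ _) (by positivity)
      _ ≤ 1 / T₃ ^ ((r : ℝ) / 2) * T₃ ^ ((r : ℝ) / 2) :=
          mul_le_mul_of_nonneg_left h2 (by positivity)
      _ = 1 := by field_simp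
      _ ≤ _ := h1
  · have h2c : 2 * c₀ ≤ T := (le_max_right _ _).trans h
    set N := ⌊√(T / 2) / s⌋₊ with hN
    have hN1 : (N : ℝ) ≤ √(T / 2) / s := Nat.floor_le (by positivity)
    have hN2 : √(T / 2) / s < N + 1 := Nat.lt_floor_add_one _
    have hNs : (N : ℝ) * s ≤ √(T / 2) := by rwa [le_div_iff₀ hspos] at hN1
    have h3 := hpt N T (by
      have h4 : ((N : ℝ) * s) ^ 2 ≤ T / 2 := by
        calc ((N : ℝ) * s) ^ 2 ≤ √(T / 2) ^ 2 := pow_le_pow_left₀ (by positivity) hNs 2
          _ = T / 2 := Real.sq_sqrt (by positivity)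
      nlinarith)
    refine le_trans ?_ h3
    push_cast
    have h5 : ((1 / (2 * s ^ 2)) ^ ((r : ℝ) / 2)) * T ^ ((r : ℝ) / 2) =
        (√(T / 2) / s) ^ r := by
      rw [← Real.mul_rpow (by positivity) (by positivity)]
      have e1 : 1 / (2 * s ^ 2) * T = (√(T / 2) / s) ^ 2 := by
        rw [div_pow, Real.sq_sqrt (by positivity)]
        field_simp
      rw [e1, ← Real.rpow_natCast (√(T / 2) / s) 2, ← Real.rpow_mul (by positivity),
        ← Real.rpow_natCast (√(T / 2) / s) r]
      congr 1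
      push_cast; ring
    calc _ ≤ ((1 / (2 * s ^ 2)) ^ ((r : ℝ) / 2)) * T ^ ((r : ℝ) / 2) :=
          mul_le_mul_of_nonneg_right (min_le_right _ _) (by positivity)
      _ = (√(T / 2) / s) ^ r := h5
      _ ≤ _ := pow_le_pow_left₀ (by positivity) hN2.le r

end

end Pool.Agent.Helper29.GC
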