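import Pool.Agent.Helper29.GC.Main

/-!
# General centres: the proportion of bad points
-/

namespace Pool.Agent.Helper29.GC

open Pool.Agent.Helper29.BL Height Height.AdmissibleAbsValues WeierstrassCurve MvPolynomial

set_option linter.unusedSectionVars false

noncomputable section

variable {K : Type} [Field K] [NumberField K] [DecidableEq K]

/-- the number of points of the product of height `≤ T` -/
def tot {n : ℕ} {W : Fin n → Affine K} (Γ : ∀ i, AddSubgroup (W i).Point) (T : ℝ) : ℝ :=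
  ({z : ∀ i, (W i).Point | (∀ i, z i ∈ Γ i) ∧ ∑ i, hx (z i) ≤ T}.ncard : ℝ)

lemma prod_cnt {n : ℕ} {W : Fin n → Affine K} (Γ : ∀ i, AddSubgroup (W i).Point) (T : ℝ) :
    ∏ i, cnt (Γ i) T = ((Fintype.piFinset fun i => pts (Γ i) T).card : ℝ) := by
  rw [Fintype.card_piFinset]
  push_cast
  exact Finset.prod_congr rfl fun i _ => cnt_eq _ _

lemma totFin {n : ℕ} {W : Fin n → Affine K} (Γ : ∀ i, AddSubgroup (W i).Point) (T : ℝ) :
    {z : ∀ i, (W i).Point | (∀ i, z i ∈ Γ i) ∧ ∑ i, hx (z i) ≤ T}.Finite := by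
  refine (Fintype.piFinset fun i => pts (Γ i) T).finite_toSet.subset fun z hz => ?_
  rw [Finset.mem_coe, Fintype.mem_piFinset]
  intro i
  refine mem_pts.2 ⟨hz.1 i, ?_⟩
  exact (Finset.single_le_sum (f := fun i => hx (z i)) (fun i _ => hx_nonneg (z i))
    (Finset.mem_univ i)).trans hz.2

lemma prod_le_tot {n : ℕ} (hn : 0 < n) {W : Fin n → Affine K}
    (Γ : ∀ i, AddSubgroup (W i).Point) (T : ℝ) :
    ∏ i, cnt (Γ i) (T / n) ≤ tot Γ T := by
  rw [prod_cnt, tot, ← Set.ncard_coe_finset]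
  have h : ((Fintype.piFinset fun i => pts (Γ i) (T / n) : Finset (∀ i, (W i).Point)) :
      Set (∀ i, (W i).Point)) ⊆
      {z : ∀ i, (W i).Point | (∀ i, z i ∈ Γ i) ∧ ∑ i, hx (z i) ≤ T} := by
    intro z hz
    rw [Finset.mem_coe, Fintype.mem_piFinset] at hz
    refine ⟨fun i => (mem_pts.1 (hz i)).1, ?_⟩
    calc ∑ i, hx (z i) ≤ ∑ _i : Fin n, T / n :=
          Finset.sum_le_sum fun i _ => (mem_pts.1 (hz i)).2
      _ = T := by
          rw [Finset.sum_const, nsmul_eq_mul, Finset.card_univ, Fintype.card_fin]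
          have : (n : ℝ) ≠ 0 := by positivity
          field_simp
  exact_mod_cast Set.ncard_le_ncard h (totFin Γ T)

/-- `Σ_i ∏_{j ≠ i} #Γ_j(T)` -/
def EE {n : ℕ} {W : Fin n → Affine K} (Γ : ∀ i, AddSubgroup (W i).Point) (T : ℝ) : ℝ :=
  ∑ i, (∏ j, cnt (Γ j) T) / cnt (Γ i) T

lemma EE_eq {n : ℕ} {W : Fin n → Affine K} (Γ : ∀ i, AddSubgroup (W i).Point) {T : ℝ}
    (hT : 0 ≤ T) : EE Γ T = ∑ i, ∏ j ∈ Finset.univ.erase i, cnt (Γ j) T := by
  refine Finset.sum_congr rfl fun i _ => ?_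
  have h : cnt (Γ i) T ≠ 0 := (lt_of_lt_of_le one_pos (one_le_cnt (Γ i) hT)).ne'
  rw [div_eq_iff h, mul_comm]
  exact (Finset.mul_prod_erase Finset.univ (fun j => cnt (Γ j) T) (Finset.mem_univ i)).symm

lemma EE_nonneg {n : ℕ} {W : Fin n → Affine K} (Γ : ∀ i, AddSubgroup (W i).Point) (T : ℝ) :
    0 ≤ EE Γ T :=
  Finset.sum_nonneg fun _ _ => div_nonneg (Finset.prod_nonneg fun _ _ => cnt_nonneg _ _)
    (cnt_nonneg _ _)

lemma EE_growth {n : ℕ} (hn : 2 ≤ n) {W : Fin n → Affine K} (hW : ∀ i, (W i).IsElliptic)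
    (Γ : ∀ i, AddSubgroup (W i).Point) (hΓ : ∀ i, (Γ i).FG) (hinf : ∀ i, Infinite (Γ i)) :
    ∃ T₁ : ℝ, 1 ≤ T₁ ∧ ∀ T : ℝ, T₁ ≤ T → 2 * EE Γ (T / 16) ≤ EE Γ T := by
  classical
  have h : ∀ i, ∃ T₁ : ℝ, 1 ≤ T₁ ∧ ∀ T : ℝ, T₁ ≤ T → 2 * cnt (Γ i) (T / 16) ≤ cnt (Γ i) T :=
    fun i => by have := hW i; exact cnt_growth (W i) (Γ i) (hΓ i) (hinf i)
  choose T₁ hT₁ hg using h
  refine ⟨1 + ∑ i, T₁ i, ?_, fun T hT => ?_⟩
  · have : 0 ≤ ∑ i, T₁ i := Finset.sum_nonneg fun i _ => by linarith [hT₁ i]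
    linarith
  have hTi : ∀ i, T₁ i ≤ T := fun i => by
    have := Finset.single_le_sum (f := T₁) (fun i _ => by linarith [hT₁ i]) (Finset.mem_univ i)
    linarith
  have hT0 : 0 ≤ T := by
    have := hTi ⟨0, by omega⟩
    have := hT₁ ⟨0, by omega⟩
    linarith
  rw [EE_eq Γ hT0, EE_eq Γ (show 0 ≤ T / 16 by positivity), Finset.mul_sum]
  refine Finset.sum_le_sum fun i _ => ?_
  obtain ⟨j, hj⟩ : ∃ j : Fin n, j ≠ i := by
    have : Nontrivial (Fin n) := Fin.nontrivial_iff_two_le.2 hn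
    exact exists_ne i
  have hjm : j ∈ Finset.univ.erase i := Finset.mem_erase.2 ⟨hj, Finset.mem_univ j⟩
  rw [← Finset.mul_prod_erase _ _ hjm, ← Finset.mul_prod_erase _ _ hjm, ← mul_assoc]
  refine mul_le_mul (hg j T (hTi j)) ?_ (Finset.prod_nonneg fun _ _ => cnt_nonneg _ _)
    (cnt_nonneg _ _)
  exact Finset.prod_le_prod (fun _ _ => cnt_nonneg _ _) fun k _ => cnt_mono _ (by linarith)

/-- FIN. The proportion of bad points. -/
theorem fin_thm (n : ℕ) (hn : 2 ≤ n) (W : Fin n → Affine K) (hW : ∀ i, (W i).IsElliptic)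
    (Γ : ∀ i, AddSubgroup (W i).Point) (hΓ : ∀ i, (Γ i).FG) (ι : Type) [Fintype ι] (D : ℕ)
    (f : ι → MvPolynomial (Fin n) K) (hf : GoodF D f) (r : ℕ)
    (hr : ∀ i, Finite (Γ i) ∨ r ≤ Module.finrank ℤ (Γ i)) (δ : ℝ) (hδ : 0 < δ) :
    ∃ (Z : MvPolynomial (Fin n) K) (C : ℝ), Z ≠ 0 ∧ 0 ≤ C ∧ ∀ T : ℝ, 1 ≤ T →
      ∀ B : Finset (∀ i, (W i).Point), (∀ z ∈ B, (∀ i, z i ∈ Γ i ∧ z i ≠ 0) ∧
        ∑ i, hx (z i) ≤ T ∧ eval (fun i => xc (z i)) Z ≠ 0 ∧
        δ * ∑ i, hx (z i) ≤ gF D f (fun i => xc (z i))) →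
      T ^ ((r : ℝ) / 2) * (B.card : ℝ) ≤ C * tot Γ T := by
  classical
  by_cases hinf : ∀ i, Infinite (Γ i)
  swap
  · -- some `Γ i` is finite
    push Not at hinf
    obtain ⟨i, hi⟩ := hinf
    have hfin : (Γ i : Set (W i).Point).Finite := hi
    refine ⟨∏ t ∈ hfin.toFinset, (X i - C (xc t)), 0, ?_, le_rfl, fun T hT B hB => ?_⟩
    · refine Finset.prod_ne_zero_iff.2 fun t _ h => ?_
      have h1 := congrArg (eval fun _ => xc t + 1) h
      simp at h1
    · have hB0 : B = ∅ := by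
        by_contra hne
        obtain ⟨z, hz⟩ := Finset.nonempty_of_ne_empty hne
        obtain ⟨h1, -, h2, -⟩ := hB z hz
        apply h2
        rw [map_prod]
        refine Finset.prod_eq_zero (i := z i) (hfin.mem_toFinset.2 (h1 i).1) ?_
        simp
      rw [hB0]
      simp
  -- all `Γ i` are infinite
  have hr' : ∀ i, r ≤ Module.finrank ℤ (Γ i) := fun i => (hr i).resolve_left fun h =>
    (hinf i).not_finite h
  obtain ⟨Z, C₀, T₀, hZ, hC₀, hT₀, hmain⟩ := main n W hW Γ hΓ ι D f hf (δ / 16) (by positivity)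
  obtain ⟨T₁, hT₁, hgr⟩ := EE_growth hn hW Γ hΓ hinf
  set T₂ := max T₀ T₁ with hT₂
  have hT₂1 : 1 ≤ T₂ := hT₁.trans (le_max_right _ _)
  set N₁ := ∏ i, cnt (Γ i) T₂ with hN₁
  have hN₁0 : 0 ≤ N₁ := Finset.prod_nonneg fun _ _ => cnt_nonneg _ _
  -- the bad points of height `≤ T`
  have hbad : ∀ k : ℕ, ∀ T : ℝ, 0 ≤ T → T ≤ 16 ^ k * T₂ → ∀ B : Finset (∀ i, (W i).Point),
      (∀ z ∈ B, (∀ i, z i ∈ Γ i ∧ z i ≠ 0) ∧ ∑ i, hx (z i) ≤ T ∧
        eval (fun i => xc (z i)) Z ≠ 0 ∧ δ * ∑ i, hx (z i) ≤ gF D f (fun i => xc (z i))) →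
      (B.card : ℝ) ≤ N₁ + 2 * C₀ * EE Γ T := by
    intro k
    induction k with
    | zero =>
      intro T _ hT B hB
      rw [pow_zero, one_mul] at hT
      have h1 : (B.card : ℝ) ≤ N₁ := by
        rw [hN₁, prod_cnt]
        have : B.card ≤ (Fintype.piFinset fun i => pts (Γ i) T₂).card := by
          refine Finset.card_le_card fun z hz => ?_
          obtain ⟨h1, h2, -, -⟩ := hB z hz
          rw [Fintype.mem_piFinset]
          intro i
          refine mem_pts.2 ⟨(h1 i).1, ?_⟩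
          exact ((Finset.single_le_sum (f := fun i => hx (z i)) (fun i _ => hx_nonneg (z i))
            (Finset.mem_univ i)).trans h2).trans hT
        exact_mod_cast this
      have h2 := EE_nonneg Γ T
      have h3 : 0 ≤ 2 * C₀ * EE Γ T := by positivity
      linarith
    | succ k ih =>
      intro T hT0 hT B hB
      rcases le_or_gt T (16 ^ k * T₂) with hTk | hTk
      · exact ih T hT0 hTk B hB
      have hT₂T : T₂ ≤ T := by
        have : (1 : ℝ) ≤ 16 ^ k := one_le_pow₀ (by norm_num)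
        nlinarith
      set P : (∀ i, (W i).Point) → Prop := fun z => ∑ i, hx (z i) ≤ T / 16 with hP
      have hcard : B.card = (B.filter P).card + (B.filter fun z => ¬ P z).card :=
        (Finset.card_filter_add_card_filter_not P).symm
      have h1 := ih (T / 16) (by positivity) (by
        rw [div_le_iff₀ (by norm_num)]
        calc T ≤ 16 ^ (k + 1) * T₂ := hT
          _ = 16 ^ k * T₂ * 16 := by ring) (B.filter P) (fun z hz => by
        obtain ⟨hzB, hzP⟩ := Finset.mem_filter.1 hz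
        obtain ⟨h1, -, h3, h4⟩ := hB z hzB
        exact ⟨h1, hzP, h3, h4⟩)
      have h2 := hmain T ((le_max_left _ _).trans hT₂T) (B.filter fun z => ¬ P z) (fun z hz => by
        obtain ⟨hzB, hzP⟩ := Finset.mem_filter.1 hz
        obtain ⟨h1, h2, h3, h4⟩ := hB z hzB
        have hzP' : T / 16 < ∑ i, hx (z i) := not_le.1 hzP
        refine ⟨fun i => ⟨(h1 i).1, (h1 i).2, ?_⟩, h3, ?_⟩
        · exact (Finset.single_le_sum (f := fun i => hx (z i)) (fun i _ => hx_nonneg (z i))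
            (Finset.mem_univ i)).trans h2
        · refine le_trans ?_ h4
          nlinarith)
      have h3 := hgr T ((le_max_right _ _).trans hT₂T)
      rw [hcard]
      push_cast
      have h4 : C₀ * (2 * EE Γ (T / 16)) ≤ C₀ * EE Γ T := mul_le_mul_of_nonneg_left h3 hC₀
      have h5 : ((B.filter fun z => ¬ P z).card : ℝ) ≤ C₀ * EE Γ T := h2
      linarith
  -- constants
  have hlow : ∀ i, ∃ c : ℝ, 0 < c ∧ ∀ T : ℝ, 1 ≤ T → c * T ^ ((r : ℝ) / 2) ≤ cnt (Γ i) T :=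
    fun i => by have := hW i; exact cnt_lower (W i) (Γ i) (hΓ i) r (hr' i)
  choose c hc hcl using hlow
  have hdoub : ∀ i, ∃ C : ℝ, 1 ≤ C ∧ ∀ T : ℝ, 1 ≤ T → cnt (Γ i) T ≤ C * cnt (Γ i) (T / n) :=
    fun i => by
      have := hW i
      exact cnt_doubling (W i) (Γ i) (hΓ i) n (by exact_mod_cast (by omega : 1 ≤ n))
  choose Cd hCd hCdl using hdoub
  refine ⟨Z, (∑ i, (N₁ + 2 * C₀) / c i) * ∏ i, Cd i, hZ, ?_, fun T hT B hB => ?_⟩
  · refine mul_nonneg (Finset.sum_nonneg fun i _ => div_nonneg (by positivity) (hc i).le)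
      (Finset.prod_nonneg fun i _ => by linarith [hCd i])
  have hT0 : 0 ≤ T := by linarith
  obtain ⟨k, hk⟩ : ∃ k : ℕ, T ≤ 16 ^ k * T₂ := by
    obtain ⟨k, hk⟩ := pow_unbounded_of_one_lt T (by norm_num : (1 : ℝ) < 16)
    exact ⟨k, by nlinarith⟩
  have h1 := hbad k T hT0 hk B hB
  set P := ∏ i, cnt (Γ i) T with hP
  have hP1 : 1 ≤ P := by
    calc (1 : ℝ) = ∏ _i : Fin n, 1 := by simp
      _ ≤ P := Finset.prod_le_prod (fun _ _ => zero_le_one) fun i _ => one_le_cnt _ hT0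
  have hTr : 0 ≤ T ^ ((r : ℝ) / 2) := by positivity
  have hi : ∀ i, T ^ ((r : ℝ) / 2) * (P / cnt (Γ i) T) ≤ P / c i := by
    intro i
    have h2 := hcl i T hT
    have h3 : 0 < cnt (Γ i) T := lt_of_lt_of_le one_pos (one_le_cnt _ hT0)
    rw [← mul_div_assoc, div_le_div_iff₀ h3 (hc i)]
    nlinarith
  have hEE : T ^ ((r : ℝ) / 2) * EE Γ T ≤ ∑ i, P / c i := by
    rw [EE, Finset.mul_sum]
    exact Finset.sum_le_sum fun i _ => hi i
  have h0 : T ^ ((r : ℝ) / 2) * N₁ ≤ ∑ i, N₁ * (P / c i) := by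
    have i₀ : Fin n := ⟨0, by omega⟩
    have h2 : T ^ ((r : ℝ) / 2) ≤ P / c i₀ := by
      have h3 := hi i₀
      have h4 : 1 ≤ P / cnt (Γ i₀) T := by
        have h5 : 0 < cnt (Γ i₀) T := lt_of_lt_of_le one_pos (one_le_cnt _ hT0)
        rw [le_div_iff₀ h5, one_mul, hP, ← Finset.mul_prod_erase _ _ (Finset.mem_univ i₀)]
        have h6 : (1 : ℝ) ≤ ∏ x ∈ Finset.univ.erase i₀, cnt (Γ x) T := by
          calc (1 : ℝ) = ∏ _x ∈ Finset.univ.erase i₀, 1 := by simp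
            _ ≤ _ := Finset.prod_le_prod (fun _ _ => zero_le_one) fun i _ => one_le_cnt _ hT0
        nlinarith
      nlinarith
    calc T ^ ((r : ℝ) / 2) * N₁ ≤ N₁ * (P / c i₀) := by
          rw [mul_comm]; exact mul_le_mul_of_nonneg_left h2 hN₁0
      _ ≤ ∑ i, N₁ * (P / c i) :=
          Finset.single_le_sum (f := fun i => N₁ * (P / c i))
            (fun i _ => mul_nonneg hN₁0 (div_nonneg (by linarith) (hc i).le)) (Finset.mem_univ i₀)
  have hPtot : P ≤ (∏ i, Cd i) * tot Γ T := by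
    calc P ≤ ∏ i, Cd i * cnt (Γ i) (T / n) :=
          Finset.prod_le_prod (fun i _ => cnt_nonneg _ _) fun i _ => hCdl i T hT
      _ = (∏ i, Cd i) * ∏ i, cnt (Γ i) (T / n) := Finset.prod_mul_distrib
      _ ≤ _ := mul_le_mul_of_nonneg_left (prod_le_tot (by omega) Γ T)
          (Finset.prod_nonneg fun i _ => by linarith [hCd i])
  calc T ^ ((r : ℝ) / 2) * (B.card : ℝ) ≤ T ^ ((r : ℝ) / 2) * (N₁ + 2 * C₀ * EE Γ T) :=
        mul_le_mul_of_nonneg_left h1 hTr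
    _ = T ^ ((r : ℝ) / 2) * N₁ + 2 * C₀ * (T ^ ((r : ℝ) / 2) * EE Γ T) := by ring
    _ ≤ ∑ i, N₁ * (P / c i) + 2 * C₀ * ∑ i, P / c i :=
        add_le_add h0 (mul_le_mul_of_nonneg_left hEE (by positivity))
    _ = (∑ i, (N₁ + 2 * C₀) / c i) * P := by
        rw [Finset.mul_sum, ← Finset.sum_add_distrib, Finset.sum_mul]
        refine Finset.sum_congr rfl fun i _ => ?_
        ring
    _ ≤ (∑ i, (N₁ + 2 * C₀) / c i) * ((∏ i, Cd i) * tot Γ T) := by
        refine mul_le_mul_of_nonneg_left hPtot ?_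
        exact Finset.sum_nonneg fun i _ => div_nonneg (by positivity) (hc i).le
    _ = _ := by ring

end

end Pool.Agent.Helper29.GC
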