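import Pool.Agent.Helper29.GC.Loc

/-!
# General centres: interpolation on the projective line
-/

namespace Pool.Agent.Helper29.GC

open Pool.Agent.Helper29.BL Height Height.AdmissibleAbsValues

set_option linter.unusedSectionVars false

noncomputable section

variable {K : Type} [Field K]

lemma det_abv_le (v : AbsoluteValue K ℝ) {m : ℕ} (A : Matrix (Fin m) (Fin m) K)
    (h : ∀ i j, v (A i j) ≤ 1) : v A.det ≤ cst v (m.factorial) := by
  rw [Matrix.det_apply]
  have h1 := abv_sum_le v (Finset.univ : Finset (Equiv.Perm (Fin m)))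
    (fun σ => Equiv.Perm.sign σ • ∏ i, A (σ i) i) (B := 1) zero_le_one (fun σ _ => by
      have h2 : v (∏ i, A (σ i) i) ≤ 1 := abv_prod_le_one _ _ fun i _ => h _ _
      rcases Int.units_eq_one_or (Equiv.Perm.sign σ) with h3 | h3
      · rw [h3]; simpa using h2
      · rw [h3]; simpa using h2) (c := (m.factorial : ℝ)) (by
      rw [Finset.card_univ, Fintype.card_perm, Fintype.card_fin])
  rwa [mul_one] at h1

/-- Interpolation: a polynomial of degree `≤ D` which is small at `D + 1` points of the projective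
line has small coefficients. -/
theorem interp (v : AbsoluteValue K ℝ) (D : ℕ) (a : Fin (D + 1) → K) (p : Polynomial K)
    (hp : p.natDegree ≤ D) (B : ℝ) (hB : 0 ≤ B)
    (h : ∀ i, v (p.eval (a i)) ≤ B * Mv v (a i) ^ D) (k : ℕ) :
    v (p.coeff k) * ∏ i : Fin (D + 1), ∏ j ∈ Finset.Ioi i,
      (v (a j - a i) / (Mv v (a j) * Mv v (a i))) ≤
        cst v ((D + 1 : ℕ) * ((D + 1).factorial : ℝ)) * B := by
  classical
  have hc1 : (1 : ℝ) ≤ ((D + 1 : ℕ) : ℝ) := by exact_mod_cast Nat.le_add_left 1 D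
  have hc2 : (1 : ℝ) ≤ ((D + 1).factorial : ℝ) := by exact_mod_cast Nat.factorial_pos (D + 1)
  have hc3 : (1 : ℝ) ≤ (D + 1 : ℕ) * ((D + 1).factorial : ℝ) := by nlinarith
  choose u r s hu h1 h2 hr hs hrs huM using fun i => exists_norm_coord v (a i)
  have hdet : ∏ i : Fin (D + 1), ∏ j ∈ Finset.Ioi i,
      (v (a j - a i) / (Mv v (a j) * Mv v (a i))) = v (Matrix.projVandermonde r s).det := by
    rw [Matrix.det_projVandermonde, map_prod]
    refine Finset.prod_congr rfl fun i _ => ?_
    rw [map_prod]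
    refine Finset.prod_congr rfl fun j _ => ?_
    rw [← huM, ← huM, ← map_mul, ← map_div₀]
    congr 1
    have e : a j - a i = u j * u i * (r j * s i - r i * s j) := by
      calc a j - a i = a j * 1 - a i * 1 := by ring
        _ = (u j * r j) * (u i * s i) - (u i * r i) * (u j * s j) := by
            rw [← h1, ← h1, ← h2, ← h2]
        _ = _ := by ring
    rw [e]
    field_simp [hu i, hu j]
  rw [hdet]
  rcases lt_or_ge D k with hk | hk
  · rw [Polynomial.coeff_eq_zero_of_natDegree_lt (by omega), map_zero, zero_mul]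
    exact mul_nonneg (cst_pos v hc3).le hB
  set V := Matrix.projVandermonde r s with hV
  set c : Fin (D + 1) → K := fun k => p.coeff k with hc
  have hVc : ∀ i, v ((V.mulVec c) i) ≤ B := by
    intro i
    have e1 : p.eval (a i) = u i ^ D * (V.mulVec c) i := by
      rw [Polynomial.eval_eq_sum_range' (Nat.lt_succ_of_le hp), Finset.sum_range, Matrix.mulVec,
        dotProduct, Finset.mul_sum]
      refine Finset.sum_congr rfl fun k _ => ?_
      rw [hV, Matrix.projVandermonde_apply, Fin.val_rev]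
      have hk : (k : ℕ) ≤ D := Nat.le_of_lt_succ k.2
      have e2 : D + 1 - ((k : ℕ) + 1) = D - k := by omega
      rw [e2]
      have e3 : a i ^ (k : ℕ) = u i ^ D * (r i ^ (k : ℕ) * s i ^ (D - (k : ℕ))) := by
        calc a i ^ (k : ℕ) = a i ^ (k : ℕ) * 1 ^ (D - (k : ℕ)) := by simp
          _ = (u i * r i) ^ (k : ℕ) * (u i * s i) ^ (D - (k : ℕ)) := by rw [← h1, ← h2]
          _ = (u i ^ (k : ℕ) * u i ^ (D - (k : ℕ))) * (r i ^ (k : ℕ) * s i ^ (D - (k : ℕ))) := by
              rw [mul_pow, mul_pow]; ring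
          _ = _ := by rw [← pow_add, Nat.add_sub_cancel' hk]
      rw [e3, hc]; ring
    have e4 := h i
    rw [e1, map_mul, map_pow, huM, mul_comm B] at e4
    exact le_of_mul_le_mul_left e4 (pow_pos (Mv_pos v _) _)
  have hadj : ∀ i j, v (V.adjugate i j) ≤ cst v ((D + 1).factorial : ℝ) := by
    intro i j
    rw [Matrix.adjugate_apply]
    refine det_abv_le v _ fun i' j' => ?_
    rw [Matrix.updateRow_apply]
    split_ifs with h3
    · rw [Pi.single_apply]
      split_ifs <;> simp
    · rw [hV, Matrix.projVandermonde_apply, map_mul, map_pow, map_pow]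
      exact mul_le_one₀ (pow_le_one₀ (v.nonneg _) (hr _)) (pow_nonneg (v.nonneg _) _)
        (pow_le_one₀ (v.nonneg _) (hs _))
  have hkey : V.det * p.coeff k = ∑ i, V.adjugate ⟨k, Nat.lt_succ_of_le hk⟩ i * (V.mulVec c) i := by
    have e5 : V.adjugate.mulVec (V.mulVec c) = V.det • c := by
      rw [Matrix.mulVec_mulVec, Matrix.adjugate_mul, Matrix.smul_mulVec, Matrix.one_mulVec]
    have e6 := congrFun e5 ⟨k, Nat.lt_succ_of_le hk⟩
    rw [Pi.smul_apply, smul_eq_mul] at e6
    rw [← e6]
    rfl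
  rw [mul_comm, ← map_mul, hkey, cst_mul, mul_assoc]
  refine abv_sum_le v _ _ (mul_nonneg (cst_pos v hc2).le hB) (fun i _ => ?_) (by simp)
  rw [map_mul]
  exact mul_le_mul (hadj _ _) (hVc i) (v.nonneg _) (cst_pos v hc2).le

end

end Pool.Agent.Helper29.GC
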