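import Pool.Agent.Helper29.GC.Interp
import Pool.Agent.Helper29.GC.Chord

/-!
# General centres: the points on a line
-/

namespace Pool.Agent.Helper29.GC

open Pool.Agent.Helper29.BL Height Height.AdmissibleAbsValues WeierstrassCurve MvPolynomial

set_option linter.unusedSectionVars false

noncomputable section

/-- In a graph of degree `≤ 1` on `2D+1` vertices there are `D+1` independent vertices. -/
lemma matching {ι : Type} (B : Finset ι) (r : ι → ι → Prop)
    (hs : ∀ i j, r i j → r j i) (hr : ∀ i ∈ B, ∀ j ∈ B, ∀ k ∈ B, r i j → r i k → j = k) (D : ℕ)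
    (hB : 2 * D + 1 ≤ B.card) :
    ∃ S ⊆ B, S.card = D + 1 ∧ ∀ i ∈ S, ∀ j ∈ S, i ≠ j → ¬ r i j := by
  classical
  obtain ⟨Ind, hInd⟩ : ∃ Ind : Finset ι → Prop, ∀ S, Ind S ↔
      ∀ i ∈ S, ∀ j ∈ S, i ≠ j → ¬ r i j := ⟨_, fun S => Iff.rfl⟩
  set F := B.powerset.filter Ind with hF
  have hne : F.Nonempty := ⟨∅, by rw [hF, Finset.mem_filter, hInd]; simp⟩
  obtain ⟨I, hI, hmax⟩ := Finset.exists_max_image F Finset.card hne
  rw [hF, Finset.mem_filter, Finset.mem_powerset, hInd] at hI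
  obtain ⟨hIB, hI⟩ := hI
  have hcard : D + 1 ≤ I.card := by
    by_contra hcon
    push Not at hcon
    have h1 : ∀ x ∈ B \ I, ∃ y ∈ I, r y x := by
      intro x hx
      rw [Finset.mem_sdiff] at hx
      by_contra hc
      push Not at hc
      have h2 : insert x I ∈ F := by
        rw [hF, Finset.mem_filter, Finset.mem_powerset, hInd]
        refine ⟨Finset.insert_subset hx.1 hIB, ?_⟩
        intro i hi j hj hij
        rcases Finset.mem_insert.1 hi with rfl | hi'
        · rcases Finset.mem_insert.1 hj with rfl | hj'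
          · exact absurd rfl hij
          · exact fun h => hc j hj' (hs _ _ h)
        · rcases Finset.mem_insert.1 hj with rfl | hj'
          · exact hc i hi'
          · exact hI i hi' j hj' hij
      have h3 := hmax _ h2
      rw [Finset.card_insert_of_notMem hx.2] at h3
      omega
    choose! g hg hg' using h1
    have h4 : (B \ I).card ≤ I.card := by
      refine Finset.card_le_card_of_injOn g (fun x hx => hg x hx) ?_
      intro x hx y hy hxy
      have hx' := Finset.mem_coe.1 hx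
      have hy' := Finset.mem_coe.1 hy
      have e := hg' y hy'
      rw [← hxy] at e
      exact hr (g x) (hIB (hg x hx')) x (Finset.mem_sdiff.1 hx').1 y (Finset.mem_sdiff.1 hy').1
        (hg' x hx') e
    have h5 := Finset.card_sdiff_add_card_eq_card hIB
    omega
  obtain ⟨S, hS, hSc⟩ := Finset.exists_subset_card_eq hcard
  exact ⟨S, hS.trans hIB, hSc, fun i hi j hj => hI i (hS hi) j (hS hj)⟩

/-- A subset on which `x` is injective. -/
lemma exists_inj {α β : Type} [DecidableEq β] (S : Finset α) (g : α → β) :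
    ∃ S' ⊆ S, (∀ x ∈ S', ∀ y ∈ S', g x = g y → x = y) ∧ S'.card = (S.image g).card := by
  classical
  rcases S.eq_empty_or_nonempty with rfl | ⟨a₀, -⟩
  · exact ⟨∅, Finset.Subset.refl _, by simp, by simp⟩
  have : Nonempty α := ⟨a₀⟩
  have h : ∀ b ∈ S.image g, ∃ a ∈ S, g a = b := fun b hb => by simpa using hb
  choose! s hs hs' using h
  refine ⟨(S.image g).image s, ?_, ?_, ?_⟩
  · intro a ha
    obtain ⟨b, hb, rfl⟩ := Finset.mem_image.1 ha
    exact hs b hb
  · intro x hx y hy hxy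
    obtain ⟨b, hb, rfl⟩ := Finset.mem_image.1 hx
    obtain ⟨c, hc, rfl⟩ := Finset.mem_image.1 hy
    rw [hs' b hb, hs' c hc] at hxy
    rw [hxy]
  · refine Finset.card_image_of_injOn fun b hb c hc hbc => ?_
    rw [← hs' b hb, ← hs' c hc, hbc]

section loc

variable {K : Type} [Field K] [DecidableEq K] {W : Affine K}

/-- `κ_v` -/
def kapv (CT : ℝ) (nT : ℕ) (W : Affine K) (v : AbsoluteValue K ℝ) : ℝ :=
  Real.log (cst v CT) + nT * Real.log (bet W v)

/-- `κ_v + Σ log M(x(P-Q))` -/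
def Lamv (CT : ℝ) (nT : ℕ) (B : Finset W.Point) (v : AbsoluteValue K ℝ) : ℝ :=
  kapv CT nT W v + ∑ p ∈ B.offDiag, Real.log (Mv v (xc (p.1 - p.2)))

/-- the error term -/
def Ev (CT : ℝ) (nT D : ℕ) (B : Finset W.Point) (v : AbsoluteValue K ℝ) : ℝ :=
  Real.log (cst v ((D + 1 : ℕ) * ((D + 1).factorial : ℝ))) +
    ((D : ℝ) + 1) ^ 2 * (Lamv CT nT B v + ∑ p ∈ B.offDiag, exc p.1 p.2 v)

lemma kapv_nonneg {CT : ℝ} (hCT : 1 ≤ CT) (nT : ℕ) (v : AbsoluteValue K ℝ) :
    0 ≤ kapv CT nT W v :=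
  add_nonneg (Real.log_nonneg (one_le_cst v hCT))
    (mul_nonneg (Nat.cast_nonneg _) (Real.log_nonneg (one_le_bet W v)))

/-- Conditions on a finite set of points. -/
structure GB (B : Finset W.Point) : Prop where
  ne : ∀ P ∈ B, P ≠ 0
  opp : ∀ P ∈ B, ∀ Q ∈ B, P ≠ Q → P ≠ -Q

lemma GB.exc_nonneg {B : Finset W.Point} (hB : GB B) (v : AbsoluteValue K ℝ) :
    ∀ p ∈ B.offDiag, 0 ≤ exc p.1 p.2 v := by
  intro p hp
  rw [Finset.mem_offDiag] at hp
  exact GC.exc_nonneg _ _ v (hB.ne _ hp.1) (hB.ne _ hp.2.1) hp.2.2 (hB.opp _ hp.1 _ hp.2.1 hp.2.2)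

lemma Lamv_nonneg {CT : ℝ} (hCT : 1 ≤ CT) (nT : ℕ) (B : Finset W.Point)
    (v : AbsoluteValue K ℝ) : 0 ≤ Lamv CT nT B v :=
  add_nonneg (kapv_nonneg hCT nT v)
    (Finset.sum_nonneg fun _ _ => Real.log_nonneg (one_le_Mv v _))

lemma one_le_cD (D : ℕ) : (1 : ℝ) ≤ (D + 1 : ℕ) * ((D + 1).factorial : ℝ) := by
  have hc1 : (1 : ℝ) ≤ ((D + 1 : ℕ) : ℝ) := by exact_mod_cast Nat.le_add_left 1 D
  have hc2 : (1 : ℝ) ≤ ((D + 1).factorial : ℝ) := by exact_mod_cast Nat.factorial_pos (D + 1)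
  nlinarith

lemma Ev_nonneg {CT : ℝ} (hCT : 1 ≤ CT) (nT D : ℕ) {B : Finset W.Point} (hB : GB B)
    (v : AbsoluteValue K ℝ) : 0 ≤ Ev CT nT D B v :=
  add_nonneg (Real.log_nonneg (one_le_cst v (one_le_cD D)))
    (mul_nonneg (by positivity) (add_nonneg (Lamv_nonneg hCT nT B v)
      (Finset.sum_nonneg (hB.exc_nonneg v))))

/-- SMALL: `2D+1` points on a line cannot all be close to the common zeros, unless the last
coordinates are close to the common zeros of the coefficients. -/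
theorem small_min {CT : ℝ} {nT : ℕ} (hCT : 1 ≤ CT)
    (v : AbsoluteValue K ℝ)
    (hT : ∀ P Q : W.Point, P ≠ 0 → Q ≠ 0 → P ≠ Q →
      min (Mv v (xc P)) (Mv v (xc Q)) ≤ cst v CT * bet W v ^ nT * Mv v (xc (P - Q)))
    {n : ℕ} {ι : Type} [Finite ι] (D : ℕ) (f : ι → MvPolynomial (Fin (n + 1)) K)
    (hdeg : ∀ j, degreeOf 0 (f j) ≤ D) (x : Fin n → K) (hne : ∃ jk, eval x (cf D f jk) ≠ 0)
    (B₀ B : Finset W.Point) (hB₀ : GB B₀) (hB : B ⊆ B₀) (hcard : 2 * D + 1 ≤ B.card) (μ : ℝ)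
    (hμ : 0 ≤ μ) (hmin : ∀ P ∈ B, μ ≤ lamF D f v (Fin.cons (xc P) x)) :
    μ ≤ lamF D (cf D f) v x + Ev CT nT D B₀ v := by
  classical
  rcases eq_or_lt_of_le hμ with h0 | hμpos
  · rw [← h0]
    exact add_nonneg (lamF_nonneg _ _ _ _) (Ev_nonneg hCT nT D hB₀ v)
  set Λ := Lamv CT nT B₀ v with hΛ
  have hΛ0 : 0 ≤ Λ := Lamv_nonneg hCT nT B₀ v
  have hsub : ∀ P ∈ B₀, ∀ Q ∈ B₀, P ≠ Q → Real.log (Mv v (xc (P - Q))) + kapv CT nT W v ≤ Λ := by
    intro P hP Q hQ hPQ
    rw [hΛ, Lamv]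
    have h1 : Real.log (Mv v (xc (P - Q))) ≤
        ∑ p ∈ B₀.offDiag, Real.log (Mv v (xc (p.1 - p.2))) :=
      Finset.single_le_sum (f := fun p : W.Point × W.Point => Real.log (Mv v (xc (p.1 - p.2))))
        (fun _ _ => Real.log_nonneg (one_le_Mv v _))
        (Finset.mem_offDiag.2 ⟨hP, hQ, hPQ⟩ : (P, Q) ∈ B₀.offDiag)
    linarith
  -- independent points
  obtain ⟨S, hSB, hSc, hS⟩ := matching B
    (fun P Q => P ≠ Q ∧ Λ < Real.log (Mv v (xc (P + Q))))
    (fun P Q h => ⟨h.1.symm, by rw [add_comm]; exact h.2⟩) (by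
      intro P hP Q hQ R hR h1 h2
      by_contra hQR
      have hPB := hB hP
      have hQB := hB hQ
      have hRB := hB hR
      have hPQ0 : P + Q ≠ 0 := fun h => hB₀.opp P hPB Q hQB h1.1 (eq_neg_of_add_eq_zero_left h)
      have hPR0 : P + R ≠ 0 := fun h => hB₀.opp P hPB R hRB h2.1 (eq_neg_of_add_eq_zero_left h)
      have hne' : P + Q ≠ P + R := fun h => hQR (add_left_cancel h)
      have h3 := hT (P + Q) (P + R) hPQ0 hPR0 hne'
      have h4 : P + Q - (P + R) = Q - R := by abel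
      rw [h4] at h3
      have h5 := Real.log_le_log (lt_min (Mv_pos v _) (Mv_pos v _)) h3
      rw [Real.log_mul (by have := cst_pos v hCT; have := bet_pos W v; positivity)
        (Mv_pos v _).ne', Real.log_mul (cst_pos v hCT).ne' (pow_pos (bet_pos W v) _).ne',
        Real.log_pow] at h5
      have h6 := hsub Q hQB R hRB hQR
      rw [kapv] at h6
      have h7 : Λ < Real.log (min (Mv v (xc (P + Q))) (Mv v (xc (P + R)))) := by
        rcases min_cases (Mv v (xc (P + Q))) (Mv v (xc (P + R))) with ⟨h8, -⟩ | ⟨h8, -⟩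
        · rw [h8]; exact h1.2
        · rw [h8]; exact h2.2
      linarith) D hcard
  -- enumeration of the points
  set e : Fin (D + 1) ≃ S := (Finset.equivFinOfCardEq hSc).symm with he
  have hinj : ∀ i j : Fin (D + 1), i ≠ j → ((e i : W.Point)) ≠ e j := fun i j hij h =>
    hij (e.injective (Subtype.ext h))
  have hmem : ∀ i, (e i : W.Point) ∈ B₀ := fun i => hB (hSB (e i).2)
  have hFm : ∀ i, 0 < Fm f v (Fin.cons (xc (e i : W.Point)) x : Fin (n + 1) → K) ∧
      Fm f v (Fin.cons (xc (e i : W.Point)) x : Fin (n + 1) → K) ≤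
        (Mx v x ^ D * Real.exp (-μ)) * Mv v (xc (e i : W.Point)) ^ D := by
    intro i
    have h1 := hmin _ (hSB (e i).2)
    rw [lamF] at h1
    have h2 : 0 < Real.posLog (Mx v (Fin.cons (xc (e i : W.Point)) x : Fin (n + 1) → K) ^ D /
      Fm f v (Fin.cons (xc (e i : W.Point)) x)) := lt_of_lt_of_le hμpos h1
    have h3 : 0 < Fm f v (Fin.cons (xc (e i : W.Point)) x : Fin (n + 1) → K) := by
      refine lt_of_le_of_ne (Fm_nonneg _ _ _) fun h => ?_
      rw [← h, div_zero] at h2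
      simp [Real.posLog] at h2
    refine ⟨h3, ?_⟩
    have h4 : Real.posLog (Mx v (Fin.cons (xc (e i : W.Point)) x : Fin (n + 1) → K) ^ D /
      Fm f v (Fin.cons (xc (e i : W.Point)) x)) =
      Real.log (Mx v (Fin.cons (xc (e i : W.Point)) x : Fin (n + 1) → K) ^ D /
      Fm f v (Fin.cons (xc (e i : W.Point)) x)) := by
      rw [Real.posLog] at h2 ⊢
      rcases max_cases (0 : ℝ) (Real.log (Mx v (Fin.cons (xc (e i : W.Point)) x :
        Fin (n + 1) → K) ^ D / Fm f v (Fin.cons (xc (e i : W.Point)) x))) with ⟨h5, -⟩ | ⟨h5, -⟩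
      · rw [h5] at h2; exact absurd h2 (lt_irrefl 0)
      · exact h5
    rw [h4, Real.le_log_iff_exp_le (div_pos (pow_pos (Mx_pos v _) _) h3), le_div_iff₀ h3,
      Mx_cons, mul_pow] at h1
    have h6 : Real.exp (-μ) * Real.exp μ = 1 := by rw [← Real.exp_add]; simp
    have h7 := mul_le_mul_of_nonneg_left h1 (Real.exp_pos (-μ)).le
    rw [← mul_assoc, h6, one_mul] at h7
    linarith
  -- interpolation
  set Pr := ∏ i : Fin (D + 1), ∏ j ∈ Finset.Ioi i,
      ch v (xc (e j : W.Point)) (xc (e i : W.Point)) with hPr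
  have hxne : ∀ i j : Fin (D + 1), i ≠ j → xc (e i : W.Point) ≠ xc (e j : W.Point) := fun i j hij =>
    (add K W _ _ (hB₀.ne _ (hmem i)) (hB₀.ne _ (hmem j)) (hinj i j hij)
      (hB₀.opp _ (hmem i) _ (hmem j) (hinj i j hij))).1
  have hPr0 : 0 < Pr := Finset.prod_pos fun i _ => Finset.prod_pos fun j hj =>
    ch_pos v (hxne j i (Finset.mem_Ioi.1 hj).ne')
  set cD : ℝ := cst v ((D + 1 : ℕ) * ((D + 1).factorial : ℝ)) with hcD
  have hcDpos : 0 < cD := cst_pos v (one_le_cD D)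
  have hB1 : 0 ≤ Mx v x ^ D * Real.exp (-μ) := by have := Mx_pos v x; positivity
  have hcoef : ∀ jk, v (eval x (cf D f jk)) * Pr ≤ cD * (Mx v x ^ D * Real.exp (-μ)) := by
    intro jk
    have h1 := interp v D (fun i => xc (e i : W.Point)) ((finSuccEquiv K n (f jk.1)).map (eval x))
      ((Polynomial.natDegree_map_le).trans (by rw [natDegree_finSuccEquiv]; exact hdeg jk.1))
      (Mx v x ^ D * Real.exp (-μ)) hB1 (fun i => by
        rw [← eval_eq_eval_mv_eval']
        exact (le_Fm f v _ jk.1).trans (hFm i).2) (jk.2 : ℕ)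
    rw [Polynomial.coeff_map] at h1
    exact h1
  obtain ⟨jk₀, hjk₀⟩ := hne
  have hFc : Fm (cf D f) v x * Pr ≤ cD * (Mx v x ^ D * Real.exp (-μ)) := by
    have : Nonempty (ι × Fin (D + 1)) := ⟨jk₀⟩
    rw [← le_div_iff₀ hPr0]
    exact ciSup_le fun jk => by rw [le_div_iff₀ hPr0]; exact hcoef jk
  have hFc0 : 0 < Fm (cf D f) v x := lt_of_lt_of_le (v.pos hjk₀) (le_Fm (cf D f) v x jk₀)
  have hlow : μ + Real.log Pr - Real.log cD ≤ lamF D (cf D f) v x := by
    have h1 : Real.exp μ * Pr / cD ≤ Mx v x ^ D / Fm (cf D f) v x := by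
      rw [div_le_div_iff₀ hcDpos hFc0]
      have h6 : Real.exp μ * Real.exp (-μ) = 1 := by rw [← Real.exp_add]; simp
      have h7 := mul_le_mul_of_nonneg_left hFc (Real.exp_pos μ).le
      calc Real.exp μ * Pr * Fm (cf D f) v x = Real.exp μ * (Fm (cf D f) v x * Pr) := by ring
        _ ≤ Real.exp μ * (cD * (Mx v x ^ D * Real.exp (-μ))) := h7
        _ = Mx v x ^ D * cD * (Real.exp μ * Real.exp (-μ)) := by ring
        _ = Mx v x ^ D * cD := by rw [h6, mul_one]
    have h2 : 0 < Real.exp μ * Pr / cD := by positivity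
    have h3 := Real.log_le_log h2 h1
    rw [Real.log_div (by positivity) hcDpos.ne', Real.log_mul (Real.exp_pos _).ne' hPr0.ne',
      Real.log_exp] at h3
    exact h3.trans (le_max_right _ _)
  -- the product of the chordal distances
  have hch : ∀ i j : Fin (D + 1), i ≠ j → -Real.log (ch v (xc (e j : W.Point)) (xc (e i : W.Point)))
      ≤ Λ + ∑ p ∈ B₀.offDiag, exc p.1 p.2 v := by
    intro i j hij
    have hne1 := hinj j i (Ne.symm hij)
    have h1 : Real.log (Mv v (xc ((e j : W.Point) + (e i : W.Point)))) ≤ Λ := by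
      have := hS _ (e j).2 _ (e i).2 hne1
      push Not at this
      exact this hne1
    have h2 : Real.log (Mv v (xc ((e j : W.Point) - (e i : W.Point)))) ≤ Λ := by
      have := hsub _ (hmem j) _ (hmem i) hne1
      have := kapv_nonneg (W := W) hCT nT v
      linarith
    have h3 : exc (e j : W.Point) (e i : W.Point) v ≤ ∑ p ∈ B₀.offDiag, exc p.1 p.2 v :=
      Finset.single_le_sum (f := fun p : W.Point × W.Point => exc p.1 p.2 v)
        (hB₀.exc_nonneg v)
        (Finset.mem_offDiag.2 ⟨hmem j, hmem i, hne1⟩ : ((e j : W.Point), (e i : W.Point)) ∈ _)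
    have h4 : 0 ≤ Real.log (cst v 32) := Real.log_nonneg (one_le_cst v (by norm_num))
    have h5 : 0 ≤ Real.log (bet W v) := Real.log_nonneg (one_le_bet W v)
    rw [exc] at h3
    linarith
  have hsum0 : 0 ≤ Λ + ∑ p ∈ B₀.offDiag, exc p.1 p.2 v :=
    add_nonneg hΛ0 (Finset.sum_nonneg (hB₀.exc_nonneg v))
  have hlogPr : -Real.log Pr ≤ ((D : ℝ) + 1) ^ 2 * (Λ + ∑ p ∈ B₀.offDiag, exc p.1 p.2 v) := by
    rw [hPr, Real.log_prod fun i _ => (Finset.prod_pos fun j hj =>
      ch_pos v (hxne j i (Finset.mem_Ioi.1 hj).ne')).ne', ← Finset.sum_neg_distrib]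
    calc ∑ i : Fin (D + 1), -Real.log (∏ j ∈ Finset.Ioi i,
          ch v (xc (e j : W.Point)) (xc (e i : W.Point)))
        ≤ ∑ _i : Fin (D + 1), ((D : ℝ) + 1) * (Λ + ∑ p ∈ B₀.offDiag, exc p.1 p.2 v) := by
          refine Finset.sum_le_sum fun i _ => ?_
          rw [Real.log_prod fun j hj => (ch_pos v (hxne j i (Finset.mem_Ioi.1 hj).ne')).ne',
            ← Finset.sum_neg_distrib]
          calc ∑ j ∈ Finset.Ioi i, -Real.log (ch v (xc (e j : W.Point)) (xc (e i : W.Point)))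
              ≤ ∑ _j ∈ Finset.Ioi i, (Λ + ∑ p ∈ B₀.offDiag, exc p.1 p.2 v) :=
                Finset.sum_le_sum fun j hj => hch i j (Finset.mem_Ioi.1 hj).ne
            _ = ((Finset.Ioi i).card : ℝ) * (Λ + ∑ p ∈ B₀.offDiag, exc p.1 p.2 v) := by
                rw [Finset.sum_const, nsmul_eq_mul]
            _ ≤ ((D : ℝ) + 1) * (Λ + ∑ p ∈ B₀.offDiag, exc p.1 p.2 v) := by
                refine mul_le_mul_of_nonneg_right ?_ hsum0
                have : (Finset.Ioi i).card ≤ D + 1 := by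
                  refine (Finset.card_le_univ _).trans ?_
                  simp
                exact_mod_cast this
      _ = _ := by
          rw [Finset.sum_const, nsmul_eq_mul, Finset.card_univ, Fintype.card_fin]
          push_cast; ring
  rw [Ev, ← hcD]
  linarith

/-- For every place: the sum of the local heights of the points of a line. -/
theorem sum_loc {CT : ℝ} {nT : ℕ} (hCT : 1 ≤ CT) (v : AbsoluteValue K ℝ)
    (hT : ∀ P Q : W.Point, P ≠ 0 → Q ≠ 0 → P ≠ Q →
      min (Mv v (xc P)) (Mv v (xc Q)) ≤ cst v CT * bet W v ^ nT * Mv v (xc (P - Q)))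
    {n : ℕ} {ι : Type} [Finite ι] (D : ℕ) (f : ι → MvPolynomial (Fin (n + 1)) K)
    (hdeg : ∀ j, degreeOf 0 (f j) ≤ D) (x : Fin n → K) (hne : ∃ jk, eval x (cf D f jk) ≠ 0)
    (B : Finset W.Point) (hB : GB B) (ρ : ℝ) (hρ : ∀ P ∈ B, lamF D f v (Fin.cons (xc P) x) ≤ ρ)
    (hρ0 : 0 ≤ ρ) :
    ∑ P ∈ B, lamF D f v (Fin.cons (xc P) x) ≤
      2 * D * ρ + B.card * (lamF D (cf D f) v x + Ev CT nT D B v) := by
  classical
  set τ := lamF D (cf D f) v x + Ev CT nT D B v with hτ
  have hτ0 : 0 ≤ τ := add_nonneg (lamF_nonneg _ _ _ _) (Ev_nonneg hCT nT D hB v)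
  set H := B.filter fun P => τ < lamF D f v (Fin.cons (xc P) x) with hH
  have hHc : H.card ≤ 2 * D := by
    by_contra hcon
    push Not at hcon
    have hHne : H.Nonempty := by rw [← Finset.card_pos]; omega
    obtain ⟨P₀, hP₀, hmin⟩ := Finset.exists_min_image H
      (fun P => lamF D f v (Fin.cons (xc P) x)) hHne
    have h1 := small_min hCT v hT D f hdeg x hne B H hB (Finset.filter_subset _ _) (by omega)
      (lamF D f v (Fin.cons (xc P₀) x)) (lamF_nonneg _ _ _ _) hmin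
    have h2 := (Finset.mem_filter.1 hP₀).2
    linarith
  rw [← Finset.sum_filter_add_sum_filter_not B fun P => τ < lamF D f v (Fin.cons (xc P) x)]
  refine add_le_add ?_ ?_
  · calc ∑ P ∈ H, lamF D f v (Fin.cons (xc P) x) ≤ ∑ _P ∈ H, ρ :=
          Finset.sum_le_sum fun P hP => hρ P (Finset.mem_filter.1 hP).1
      _ = (H.card : ℝ) * ρ := by rw [Finset.sum_const, nsmul_eq_mul]
      _ ≤ 2 * D * ρ := by
          refine mul_le_mul_of_nonneg_right ?_ hρ0
          exact_mod_cast hHc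
  · calc ∑ P ∈ B.filter fun P => ¬ τ < lamF D f v (Fin.cons (xc P) x),
          lamF D f v (Fin.cons (xc P) x) ≤
          ∑ _P ∈ B.filter fun P => ¬ τ < lamF D f v (Fin.cons (xc P) x), τ :=
          Finset.sum_le_sum fun P hP => not_lt.1 (Finset.mem_filter.1 hP).2
      _ = ((B.filter fun P => ¬ τ < lamF D f v (Fin.cons (xc P) x)).card : ℝ) * τ := by
          rw [Finset.sum_const, nsmul_eq_mul]
      _ ≤ (B.card : ℝ) * τ := by
          refine mul_le_mul_of_nonneg_right ?_ hτ0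
          exact_mod_cast Finset.card_filter_le _ _

end loc

end

end Pool.Agent.Helper29.GC
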