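import Pool.Agent.Helper29.GC.Line
import Pool.Agent.Helper29.BL.AsmG

/-!
# General centres: few bad points on a line
-/

namespace Pool.Agent.Helper29.GC

open Pool.Agent.Helper29.BL Height Height.AdmissibleAbsValues WeierstrassCurve MvPolynomial

set_option linter.unusedSectionVars false

noncomputable section

variable {K : Type} [Field K] [NumberField K] [DecidableEq K]

lemma FS_kapv (CT : ℝ) (nT : ℕ) (W : Affine K) : FS (fun v => kapv CT nT W v) :=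
  (FS_log_cst CT).add ((FS_log_bet W).const_mul _)

lemma FS_Lamv (CT : ℝ) (nT : ℕ) {W : Affine K} (B : Finset W.Point) :
    FS (fun v => Lamv CT nT B v) :=
  (FS_kapv CT nT W).add (FS.sum _ fun _ _ => FS_log_Mv _)

lemma FS_Ev (CT : ℝ) (nT D : ℕ) {W : Affine K} {B : Finset W.Point} (hB : GB B) :
    FS (fun v => Ev CT nT D B v) := by
  refine (FS_log_cst _).add (FS.const_mul _ ((FS_Lamv CT nT B).add (FS.sum _ fun p hp => ?_)))
  rw [Finset.mem_offDiag] at hp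
  exact FS_exc _ _ (add K W _ _ (hB.ne _ hp.1) (hB.ne _ hp.2.1) hp.2.2
    (hB.opp _ hp.1 _ hp.2.1 hp.2.2)).1

/-- the total error -/
theorem PS_Ev (CT : ℝ) (nT D : ℕ) (W : Affine K) [W.IsElliptic] :
    ∃ C : ℝ, 0 ≤ C ∧ ∀ (B : Finset W.Point), GB B → ∀ h₀ : ℝ,
      (∀ P ∈ B, ∀ Q ∈ B, hx (P - Q) ≤ h₀) →
      PS (fun v => Ev CT nT D B v) ≤ C + ((D : ℝ) + 1) ^ 2 * (B.card : ℝ) ^ 2 * (h₀ + C) := by
  obtain ⟨Ce, hCe, hexc⟩ := PS_exc W
  set C0 := |PS (K := K) fun v => Real.log (cst v ((D + 1 : ℕ) * ((D + 1).factorial : ℝ)))| +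
    ((D : ℝ) + 1) ^ 2 * |PS fun v => kapv CT nT W v| with hC0
  have hC00 : 0 ≤ C0 := by positivity
  refine ⟨C0 + Ce, by positivity, fun B hB h₀ hh => ?_⟩
  have hh0 : ∀ p ∈ B.offDiag, PS (fun v => Real.log (Mv v (xc (p.1 - p.2)))) ≤ h₀ := by
    intro p hp
    rw [Finset.mem_offDiag] at hp
    rw [PS_log_Mv]
    exact hh _ hp.1 _ hp.2.1
  have hfs : ∀ p ∈ B.offDiag, FS (exc p.1 p.2) := by
    intro p hp
    rw [Finset.mem_offDiag] at hp
    exact FS_exc _ _ (add K W _ _ (hB.ne _ hp.1) (hB.ne _ hp.2.1) hp.2.2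
      (hB.opp _ hp.1 _ hp.2.1 hp.2.2)).1
  have he : ∀ p ∈ B.offDiag, PS (exc p.1 p.2) ≤ Ce := by
    intro p hp
    rw [Finset.mem_offDiag] at hp
    exact hexc _ _ (hB.ne _ hp.1) (hB.ne _ hp.2.1) hp.2.2 (hB.opp _ hp.1 _ hp.2.1 hp.2.2)
  have e1 : PS (fun v => Ev CT nT D B v) =
      PS (K := K) (fun v => Real.log (cst v ((D + 1 : ℕ) * ((D + 1).factorial : ℝ)))) +
      ((D : ℝ) + 1) ^ 2 * ((PS (fun v => kapv CT nT W v) +
        ∑ p ∈ B.offDiag, PS (fun v => Real.log (Mv v (xc (p.1 - p.2))))) +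
          ∑ p ∈ B.offDiag, PS (exc p.1 p.2)) := by
    unfold Ev
    rw [PS_add (FS_log_cst _) (FS.const_mul _ ((FS_Lamv CT nT B).add (FS.sum _ hfs))),
      PS_const_mul, PS_add (FS_Lamv CT nT B) (FS.sum _ hfs), PS_sum _ hfs]
    unfold Lamv
    rw [PS_add (FS_kapv CT nT W) (FS.sum _ fun _ _ => FS_log_Mv _), PS_sum _ fun _ _ => FS_log_Mv _]
  rw [e1]
  have hcard : (B.offDiag.card : ℝ) ≤ (B.card : ℝ) ^ 2 := by
    rw [Finset.offDiag_card]
    have : B.card * B.card - B.card ≤ B.card ^ 2 := by rw [pow_two]; omega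
    exact_mod_cast this
  have hoff : B.offDiag = ∅ ∨ 0 ≤ h₀ := by
    rcases B.offDiag.eq_empty_or_nonempty with h | ⟨p, hp⟩
    · exact Or.inl h
    · right
      rw [Finset.mem_offDiag] at hp
      exact (hx_nonneg _).trans (hh _ hp.1 _ hp.2.1)
  have s1 : ∑ p ∈ B.offDiag, PS (fun v => Real.log (Mv v (xc (p.1 - p.2)))) +
      ∑ p ∈ B.offDiag, PS (exc p.1 p.2) ≤ (B.offDiag.card : ℝ) * (h₀ + Ce) := by
    rw [← Finset.sum_add_distrib]
    calc ∑ p ∈ B.offDiag, (PS (fun v => Real.log (Mv v (xc (p.1 - p.2)))) + PS (exc p.1 p.2))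
        ≤ ∑ _p ∈ B.offDiag, (h₀ + Ce) :=
          Finset.sum_le_sum fun p hp => add_le_add (hh0 p hp) (he p hp)
      _ = _ := by rw [Finset.sum_const, nsmul_eq_mul]
  have s2 : (B.offDiag.card : ℝ) * (h₀ + Ce) ≤ (B.card : ℝ) ^ 2 * (h₀ + (C0 + Ce)) := by
    rcases hoff with h | h
    · rw [h]
      simp only [Finset.card_empty, Nat.cast_zero, zero_mul]
      rcases Finset.eq_empty_or_nonempty B with hb | ⟨P, hP⟩
      · rw [hb]; simp
      · have := (hx_nonneg _).trans (hh P hP P hP)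
        positivity
    · calc (B.offDiag.card : ℝ) * (h₀ + Ce) ≤ (B.card : ℝ) ^ 2 * (h₀ + Ce) :=
            mul_le_mul_of_nonneg_right hcard (by linarith)
        _ ≤ _ := mul_le_mul_of_nonneg_left (by linarith) (by positivity)
  have a1 := le_abs_self (PS (K := K) fun v =>
    Real.log (cst v ((D + 1 : ℕ) * ((D + 1).factorial : ℝ))))
  have a2 := le_abs_self (PS fun v => kapv CT nT W v)
  have hD : (0 : ℝ) ≤ ((D : ℝ) + 1) ^ 2 := by positivity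
  have b1 := mul_le_mul_of_nonneg_left (s1.trans s2) hD
  have b2 := mul_le_mul_of_nonneg_left a2 hD
  calc _ = PS (K := K) (fun v => Real.log (cst v ((D + 1 : ℕ) * ((D + 1).factorial : ℝ)))) +
        ((D : ℝ) + 1) ^ 2 * PS (fun v => kapv CT nT W v) + ((D : ℝ) + 1) ^ 2 *
        (∑ p ∈ B.offDiag, PS (fun v => Real.log (Mv v (xc (p.1 - p.2)))) +
          ∑ p ∈ B.offDiag, PS (exc p.1 p.2)) := by ring
    _ ≤ C0 + ((D : ℝ) + 1) ^ 2 * ((B.card : ℝ) ^ 2 * (h₀ + (C0 + Ce))) := by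
        rw [hC0] at b1 ⊢
        linarith
    _ ≤ _ := by rw [← mul_assoc]; linarith

/-- In a small ball of a line there are few bad points. -/
theorem line_ball {n : ℕ} {ι : Type} [Fintype ι] (W : Affine K) [W.IsElliptic] (D : ℕ)
    (f : ι → MvPolynomial (Fin (n + 1)) K) (hf : GoodF D f) (δ : ℝ) (hδ : 0 < δ) :
    ∃ (R : MvPolynomial (Fin n) K) (m₀ : ℕ) (ε T₀ : ℝ), R ≠ 0 ∧ 0 < ε ∧ 0 ≤ T₀ ∧
      ∀ T : ℝ, T₀ ≤ T → ∀ x : Fin n → K, (∀ i, logHeight₁ (x i) ≤ T) → eval x R ≠ 0 →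
      gF D (cf D f) x ≤ δ / 4 * T → ∀ B : Finset W.Point, GB B →
      (∀ P ∈ B, δ * T ≤ gF D f (Fin.cons (xc P) x)) →
      (∀ P ∈ B, ∀ Q ∈ B, hx (P - Q) ≤ ε * T) → B.card < m₀ := by
  classical
  obtain ⟨R, N, C₁, hR, hC₁, hρ⟩ := elim_bound hf
  obtain ⟨CT, nT, hCT, hT⟩ := th_tri
  obtain ⟨C₂, hC₂, hE⟩ := PS_Ev CT nT D W
  -- the number of points
  obtain ⟨m, hm⟩ := exists_nat_gt ((2 * D * (N * n) + 1) * (2 / δ))
  have hmpos : 0 < (m : ℝ) := lt_trans (by positivity) hm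
  have hmδ : 2 * D * (N * n) + 1 < m * (δ / 2) := by
    rw [← div_lt_iff₀ (by positivity)]
    calc (2 * D * (N * n) + 1) / (δ / 2) = (2 * D * (N * n) + 1 : ℝ) * (2 / δ) := by field_simp
      _ < m := hm
  obtain ⟨ε, hε⟩ : ∃ ε : ℝ, ε = δ / (8 * ((D : ℝ) + 1) ^ 2 * (m : ℝ) ^ 2) := ⟨_, rfl⟩
  have hεpos : 0 < ε := by rw [hε]; positivity
  have hεm : ((D : ℝ) + 1) ^ 2 * (m : ℝ) ^ 2 * ε = δ / 8 := by
    rw [hε]; field_simp
  obtain ⟨C₅, hC₅⟩ : ∃ C₅ : ℝ, C₅ = 2 * D * C₁ + m * (C₂ +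
    ((D : ℝ) + 1) ^ 2 * (m : ℝ) ^ 2 * C₂) := ⟨_, rfl⟩
  have hC₅0 : 0 ≤ C₅ := by rw [hC₅]; positivity
  refine ⟨R, m, ε, C₅ + 1, hR, hεpos, by positivity, ?_⟩
  intro T hTT x hx hxR hgc B₀ hB₀ hbad hsmall
  by_contra hcon
  push Not at hcon
  obtain ⟨B, hBB, hBc⟩ := Finset.exists_subset_card_eq hcon
  have hB : GB B := ⟨fun P hP => hB₀.ne P (hBB hP), fun P hP Q hQ => hB₀.opp P (hBB hP) Q (hBB hQ)⟩
  obtain ⟨ρ, hρFS, hρ0, hρle, hρPS, hne, hev⟩ := hρ x hxR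
  obtain ⟨jk₀, hjk₀⟩ := hne
  have hT0 : 0 ≤ T := by linarith
  -- the local inequality
  have hloc : ∀ v : AbsoluteValue K ℝ, ∑ P ∈ B, lamF D f v (Fin.cons (xc P) x) ≤
      2 * D * ρ v + B.card * (lamF D (cf D f) v x + Ev CT nT D B v) := fun v =>
    sum_loc hCT v (fun P Q => hT K v W P Q) D f (fun j => hf.deg j 0) x ⟨jk₀, hjk₀⟩ B hB (ρ v)
      (fun P _ => hρle v _) (hρ0 v)
  have hFS1 : ∀ P ∈ B, FS (fun v => lamF D f v (Fin.cons (xc P) x : Fin (n + 1) → K)) := by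
    intro P _
    obtain ⟨j, hj⟩ := hev (xc P)
    exact FS_lamF D f _ j hj
  have hFS2 : FS (fun v => lamF D (cf D f) v x) := FS_lamF D (cf D f) x jk₀ hjk₀
  have hFS3 := FS_Ev CT nT D hB
  have hglob := PS_mono (FS.sum _ hFS1) ((hρFS.const_mul (2 * (D : ℝ))).add
    ((hFS2.add hFS3).const_mul (B.card : ℝ))) hloc
  rw [PS_sum _ hFS1, PS_add (hρFS.const_mul (2 * (D : ℝ))) ((hFS2.add hFS3).const_mul (B.card : ℝ)),
    PS_const_mul, PS_const_mul, PS_add hFS2 hFS3] at hglob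
  have hlow : (m : ℝ) * (δ * T) ≤ ∑ P ∈ B, PS (fun v => lamF D f v (Fin.cons (xc P) x)) := by
    calc (m : ℝ) * (δ * T) = ∑ _P ∈ B, δ * T := by rw [Finset.sum_const, nsmul_eq_mul, hBc]
      _ ≤ _ := Finset.sum_le_sum fun P hP => hbad P (hBB hP)
  have hEB := hE B hB (ε * T) fun P hP Q hQ => hsmall P (hBB hP) Q (hBB hQ)
  rw [hBc] at hEB hglob
  have hsum : ∑ i, logHeight₁ (x i) ≤ n * T := by
    calc ∑ i, logHeight₁ (x i) ≤ ∑ _i : Fin n, T := Finset.sum_le_sum fun i _ => hx i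
      _ = n * T := by rw [Finset.sum_const, nsmul_eq_mul, Finset.card_univ, Fintype.card_fin]
  have hρ1 : PS ρ ≤ N * (n * T) + C₁ := by
    have := mul_le_mul_of_nonneg_left hsum (Nat.cast_nonneg (α := ℝ) N)
    linarith
  have hgc' : PS (fun v => lamF D (cf D f) v x) ≤ δ / 4 * T := hgc
  have h1 : (2 * (D : ℝ)) * PS ρ ≤ 2 * D * (N * (n * T) + C₁) :=
    mul_le_mul_of_nonneg_left hρ1 (by positivity)
  have h2 : (m : ℝ) * (PS (fun v => lamF D (cf D f) v x) + PS (fun v => Ev CT nT D B v)) ≤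
      m * (δ / 4 * T + (C₂ + ((D : ℝ) + 1) ^ 2 * (m : ℝ) ^ 2 * (ε * T + C₂))) :=
    mul_le_mul_of_nonneg_left (add_le_add hgc' hEB) hmpos.le
  have h3 : ((D : ℝ) + 1) ^ 2 * (m : ℝ) ^ 2 * (ε * T + C₂) =
      δ / 8 * T + ((D : ℝ) + 1) ^ 2 * (m : ℝ) ^ 2 * C₂ := by
    rw [← hεm]; ring
  rw [h3] at h2
  have h4 : (m : ℝ) * (δ * T) ≤ 2 * D * (N * n) * T + m * (δ / 4 + δ / 8) * T + C₅ := by
    rw [hC₅]
    nlinarith
  have h5 : (2 * D * (N * n) + 1) * T ≤ m * (δ / 2) * T :=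
    mul_le_mul_of_nonneg_right hmδ.le hT0
  nlinarith [mul_nonneg hmpos.le (mul_nonneg hδ.le hT0)]

/-- LINE: few bad points on a line. -/
theorem line {n : ℕ} {ι : Type} [Fintype ι] (W : Affine K) [W.IsElliptic]
    (Γ : AddSubgroup W.Point) (hΓ : Γ.FG) (D : ℕ)
    (f : ι → MvPolynomial (Fin (n + 1)) K) (hf : GoodF D f) (δ : ℝ) (hδ : 0 < δ) :
    ∃ (R : MvPolynomial (Fin n) K) (N : ℕ) (T₀ : ℝ), R ≠ 0 ∧ 0 ≤ T₀ ∧
      ∀ T : ℝ, T₀ ≤ T → ∀ x : Fin n → K, (∀ i, logHeight₁ (x i) ≤ T) → eval x R ≠ 0 →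
      gF D (cf D f) x ≤ δ / 4 * T → ∀ B : Finset W.Point,
      (∀ P ∈ B, P ∈ Γ ∧ P ≠ 0 ∧ hx P ≤ T ∧ δ * T ≤ gF D f (Fin.cons (xc P) x)) →
      B.card ≤ N := by
  classical
  obtain ⟨R, m₀, ε, T₀, hR, hε, hT₀, hball⟩ := line_ball W D f hf δ hδ
  obtain ⟨H, c₀, hH, hPk⟩ := th_ghe K W Γ hΓ
  have hc₀ : 0 ≤ c₀ := (abs_nonneg _).trans (hH.near 0)
  obtain ⟨NP, hNP⟩ := hPk (max 1 (4 / √ε)) (le_max_left _ _)
  refine ⟨R, NP * (2 * m₀), max (max T₀ 1) (max c₀ (2 * c₀ / ε)), hR,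
    hT₀.trans ((le_max_left _ _).trans (le_max_left _ _)), ?_⟩
  intro T hTT x hxT hxR hgc B hB
  have hT₀T : T₀ ≤ T := (le_max_left _ _).trans ((le_max_left _ _).trans hTT)
  have hT1 : 1 ≤ T := (le_max_right _ _).trans ((le_max_left _ _).trans hTT)
  have hcT : c₀ ≤ T := (le_max_left _ _).trans ((le_max_right _ _).trans hTT)
  have hcε : c₀ ≤ ε * T / 2 := by
    have h1 : 2 * c₀ / ε ≤ T := (le_max_right _ _).trans ((le_max_right _ _).trans hTT)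
    rw [div_le_iff₀ hε] at h1
    linarith
  have hTpos : 0 < T := by linarith
  have hHQ : ∀ Q ∈ B, H Q ≤ 2 * T := by
    intro Q hQ
    have h1 := (abs_le.1 (hH.near Q)).2
    have h2 := (hB Q hQ).2.2.1
    linarith
  have hdiam : ∀ Q ∈ B, ∀ Q' ∈ B, √(H (Q - Q')) ≤ max 1 (4 / √ε) * √(ε * T / 2) := by
    intro Q hQ Q' hQ'
    have h3 := hH.tri Q (-Q')
    rw [← sub_eq_add_neg, hH.neg Q'] at h3
    have h4 : √(H Q) ≤ √(2 * T) := Real.sqrt_le_sqrt (hHQ Q hQ)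
    have h5 : √(H Q') ≤ √(2 * T) := Real.sqrt_le_sqrt (hHQ Q' hQ')
    have h6 : 2 * √(2 * T) = 4 / √ε * √(ε * T / 2) := by
      have e1 : √(ε * T / 2) = √ε * √(T / 2) := by
        rw [← Real.sqrt_mul hε.le]; congr 1; ring
      have e2 : √(2 * T) = 2 * √(T / 2) := by
        have : (2 : ℝ) * T = 2 ^ 2 * (T / 2) := by ring
        rw [this, Real.sqrt_mul (by norm_num), Real.sqrt_sq (by norm_num)]
      have e3 : √ε ≠ 0 := (Real.sqrt_pos.2 hε).ne'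
      rw [e1, e2]
      field_simp
      norm_num
    calc √(H (Q - Q')) ≤ √(H Q) + √(H Q') := h3
      _ ≤ 4 / √ε * √(ε * T / 2) := by rw [← h6]; linarith
      _ ≤ max 1 (4 / √ε) * √(ε * T / 2) :=
        mul_le_mul_of_nonneg_right (le_max_right _ _) (Real.sqrt_nonneg _)
  obtain ⟨g, hg⟩ := hNP B (fun Q hQ => (hB Q hQ).1) (√(ε * T / 2))
    (Real.sqrt_pos.2 (by positivity)) hdiam
  have hfib : ∀ i : Fin NP, (B.filter fun Q => g Q = i).card ≤ 2 * m₀ := by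
    intro i
    set Bi := B.filter fun Q => g Q = i with hBi
    obtain ⟨S, hSB, hSinj, hSc⟩ := exists_inj Bi (fun P : W.Point => xc P)
    have hmem : ∀ P ∈ S, P ∈ B ∧ g P = i := fun P hP => Finset.mem_filter.1 (hSB hP)
    have hGB : GB S := by
      refine ⟨fun P hP => (hB P (hmem P hP).1).2.1, fun P hP Q hQ hPQ h => hPQ ?_⟩
      refine hSinj P hP Q hQ ?_
      show xc P = xc Q
      rw [h]
      exact (xeq K W).2 Q
    have h1 := hball T hT₀T x hxT hxR hgc S hGB (fun P hP => (hB P (hmem P hP).1).2.2.2) (by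
      intro P hP Q hQ
      have h2 := hg P (hmem P hP).1 Q (hmem Q hQ).1 ((hmem P hP).2.trans (hmem Q hQ).2.symm)
      have h3 : H (P - Q) ≤ ε * T / 2 := (Real.sqrt_le_sqrt_iff (by positivity)).1 h2
      have h4 := (abs_le.1 (hH.near (P - Q))).1
      linarith)
    have h2 : Bi.card ≤ 2 * (Bi.image (fun P : W.Point => xc P)).card := by
      refine Finset.card_le_mul_card_image Bi 2 fun b hb => ?_
      obtain ⟨P, hP, rfl⟩ := Finset.mem_image.1 hb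
      refine (Finset.card_le_card (t := {P, -P}) fun Q hQ => ?_).trans Finset.card_le_two
      obtain ⟨hQ1, hQ2⟩ := Finset.mem_filter.1 hQ
      have hQ0 := (hB Q (Finset.mem_filter.1 hQ1).1).2.1
      have hP0 := (hB P (Finset.mem_filter.1 hP).1).2.1
      rcases ((xeq K W).1 Q P hQ0 hP0).1 hQ2 with h | h
      · rw [h]; simp
      · rw [h]; simp
    rw [← hSc] at h2
    omega
  have hcard : B.card = ∑ i : Fin NP, (B.filter fun Q => g Q = i).card :=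
    Finset.card_eq_sum_card_fiberwise fun z _ => Finset.mem_coe.2 (Finset.mem_univ _)
  rw [hcard]
  calc ∑ i : Fin NP, (B.filter fun Q => g Q = i).card ≤ ∑ _i : Fin NP, 2 * m₀ :=
        Finset.sum_le_sum fun i _ => hfib i
    _ = NP * (2 * m₀) := by simp

end

end Pool.Agent.Helper29.GC
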