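import Pool.Agent.Helper29.GC.Alg
import Pool.Agent.Helper29.BL.EV
import Pool.Agent.Helper29.BL.PS

/-!
# General centres: local heights of families of polynomials, elimination, interpolation
-/

namespace Pool.Agent.Helper29.GC

open Pool.Agent.Helper29.BL Height Height.AdmissibleAbsValues MvPolynomial

set_option linter.unusedSectionVars false

noncomputable section

variable {K : Type} [Field K]

/-- `∏ᵢ max(1,|xᵢ|)` -/
def Mx {n : ℕ} (v : AbsoluteValue K ℝ) (x : Fin n → K) : ℝ := ∏ i, Mv v (x i)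

/-- `max_j |f_j(x)|` -/
def Fm {n : ℕ} {ι : Type} (f : ι → MvPolynomial (Fin n) K) (v : AbsoluteValue K ℝ)
    (x : Fin n → K) : ℝ := ⨆ j, v (eval x (f j))

/-- The local height of `x` with respect to the common zeros of the family. -/
def lamF {n : ℕ} {ι : Type} (D : ℕ) (f : ι → MvPolynomial (Fin n) K) (v : AbsoluteValue K ℝ)
    (x : Fin n → K) : ℝ := Real.posLog (Mx v x ^ D / Fm f v x)

/-- The height of `x` with respect to the common zeros of the family. -/
def gF [AdmissibleAbsValues K] {n : ℕ} {ι : Type} (D : ℕ) (f : ι → MvPolynomial (Fin n) K)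
    (x : Fin n → K) : ℝ := PS (fun v => lamF D f v x)

lemma one_le_Mx {n : ℕ} (v : AbsoluteValue K ℝ) (x : Fin n → K) : 1 ≤ Mx v x := by
  calc (1 : ℝ) = ∏ _i : Fin n, 1 := by simp
    _ ≤ Mx v x := Finset.prod_le_prod (fun _ _ => zero_le_one) fun i _ => one_le_Mv v (x i)

lemma Mx_pos {n : ℕ} (v : AbsoluteValue K ℝ) (x : Fin n → K) : 0 < Mx v x :=
  lt_of_lt_of_le one_pos (one_le_Mx v x)

lemma log_Mx {n : ℕ} (v : AbsoluteValue K ℝ) (x : Fin n → K) :
    Real.log (Mx v x) = ∑ i, Real.log (Mv v (x i)) := by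
  rw [Mx, Real.log_prod fun i _ => (Mv_pos v (x i)).ne']

lemma log_Mx_nonneg {n : ℕ} (v : AbsoluteValue K ℝ) (x : Fin n → K) : 0 ≤ Real.log (Mx v x) :=
  Real.log_nonneg (one_le_Mx v x)

lemma Mx_cons {n : ℕ} (v : AbsoluteValue K ℝ) (a : K) (x : Fin n → K) :
    Mx v (Fin.cons a x : Fin (n + 1) → K) = Mv v a * Mx v x := by
  rw [Mx, Fin.prod_univ_succ]
  simp [Mx]

lemma Fm_nonneg {n : ℕ} {ι : Type} (f : ι → MvPolynomial (Fin n) K) (v : AbsoluteValue K ℝ)
    (x : Fin n → K) : 0 ≤ Fm f v x := Real.iSup_nonneg fun _ => v.nonneg _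

lemma le_Fm {n : ℕ} {ι : Type} [Finite ι] (f : ι → MvPolynomial (Fin n) K)
    (v : AbsoluteValue K ℝ) (x : Fin n → K) (j : ι) : v (eval x (f j)) ≤ Fm f v x :=
  le_ciSup (Set.finite_range fun j => v (eval x (f j))).bddAbove j

lemma lamF_nonneg {n : ℕ} {ι : Type} (D : ℕ) (f : ι → MvPolynomial (Fin n) K)
    (v : AbsoluteValue K ℝ) (x : Fin n → K) : 0 ≤ lamF D f v x := Real.posLog_nonneg

lemma abv_prod_le_one {v : AbsoluteValue K ℝ} {ι : Type*} (s : Finset ι) (f : ι → K)
    (h : ∀ i ∈ s, v (f i) ≤ 1) : v (∏ i ∈ s, f i) ≤ 1 := by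
  rw [map_prod]
  exact Finset.prod_le_one (fun i _ => v.nonneg _) h

section ps

variable [AdmissibleAbsValues K]

lemma FS_log_Mx {n : ℕ} (x : Fin n → K) : FS (fun v => Real.log (Mx v x)) := by
  simp only [log_Mx]
  exact FS.sum _ fun i _ => FS_log_Mv (x i)

lemma PS_log_Mx {n : ℕ} (x : Fin n → K) :
    PS (fun v => Real.log (Mx v x)) = ∑ i, logHeight₁ (x i) := by
  simp only [log_Mx]
  rw [PS_sum _ fun i _ => FS_log_Mv (x i)]
  exact Finset.sum_congr rfl fun i _ => PS_log_Mv (x i)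

/-- evaluation bound -/
theorem evbd {n : ℕ} (N : ℕ) (p : MvPolynomial (Fin n) K) (hp : ∀ i, degreeOf i p ≤ N) :
    ∃ c : AbsoluteValue K ℝ → ℝ, FS c ∧ (∀ v, 0 ≤ c v) ∧
      ∀ v (x : Fin n → K), v (eval x p) ≤ Real.exp (c v) * Mx v x ^ N := by
  classical
  refine ⟨fun v => Real.log (cst v (p.support.card + 1)) +
    ∑ m ∈ p.support, Real.posLog (v (coeff m p)), ?_, ?_, ?_⟩
  · exact (FS_log_cst _).add (FS.sum _ fun m _ => FS_posLog _)
  · intro v
    have h1 : (1 : ℝ) ≤ (p.support.card : ℝ) + 1 := by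
      have : (0 : ℝ) ≤ (p.support.card : ℝ) := Nat.cast_nonneg _
      linarith
    exact add_nonneg (Real.log_nonneg (one_le_cst v h1))
      (Finset.sum_nonneg fun _ _ => Real.posLog_nonneg)
  · intro v x
    have h1 : (1 : ℝ) ≤ (p.support.card : ℝ) + 1 := by
      have : (0 : ℝ) ≤ (p.support.card : ℝ) := Nat.cast_nonneg _
      linarith
    rw [Real.exp_add, Real.exp_log (cst_pos v h1), eval_eq']
    have hM := Mx_pos v x
    set E := Real.exp (∑ m ∈ p.support, Real.posLog (v (coeff m p))) with hE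
    rw [mul_assoc]
    refine abv_sum_le v _ _ (by positivity) (fun m hm => ?_) (by linarith)
    rw [map_mul]
    refine mul_le_mul ?_ ?_ (v.nonneg _) (Real.exp_pos _).le
    · have h2 : Real.posLog (v (coeff m p)) ≤ ∑ m ∈ p.support, Real.posLog (v (coeff m p)) :=
        Finset.single_le_sum (f := fun m => Real.posLog (v (coeff m p)))
          (fun _ _ => Real.posLog_nonneg) hm
      have h3 : v (coeff m p) ≤ Real.exp (Real.posLog (v (coeff m p))) := by
        rcases eq_or_lt_of_le (v.nonneg (coeff m p)) with h0 | h0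
        · rw [← h0]; exact (Real.exp_pos _).le
        · conv_lhs => rw [← Real.exp_log h0]
          exact Real.exp_le_exp.2 (le_max_right _ _)
      exact h3.trans (Real.exp_le_exp.2 h2)
    · rw [map_prod, Mx, ← Finset.prod_pow]
      refine Finset.prod_le_prod (fun i _ => v.nonneg _) fun i _ => ?_
      rw [map_pow]
      have h4 : m i ≤ N := by
        have h5 := hp i
        rw [degreeOf_eq_sup] at h5
        exact (Finset.le_sup (f := fun m : Fin n →₀ ℕ => m i) hm).trans h5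
      calc v (x i) ^ m i ≤ Mv v (x i) ^ m i :=
            pow_le_pow_left₀ (v.nonneg _) (le_max_right _ _) _
        _ ≤ Mv v (x i) ^ N := pow_le_pow_right₀ (one_le_Mv v _) h4

/-- the height of a value -/
theorem height_eval {n : ℕ} (p : MvPolynomial (Fin n) K) :
    ∃ (N : ℕ) (C : ℝ), 0 ≤ C ∧ ∀ x : Fin n → K,
      logHeight₁ (eval x p) ≤ N * ∑ i, logHeight₁ (x i) + C := by
  classical
  obtain ⟨c, hc, hc0, h⟩ := evbd (Finset.univ.sup fun i => degreeOf i p) p
    (fun i => Finset.le_sup (f := fun i => degreeOf i p) (Finset.mem_univ i))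
  set N := Finset.univ.sup fun i => degreeOf i p
  refine ⟨N, PS c, PS_nonneg hc hc0, fun x => ?_⟩
  rw [← PS_posLog, ← PS_log_Mx, ← PS_const_mul,
    ← PS_add ((FS_log_Mx x).const_mul _) hc]
  refine PS_mono (FS_posLog _) (((FS_log_Mx x).const_mul _).add hc) fun v => ?_
  have h1 := h v x
  have h2 : (1 : ℝ) ≤ Real.exp (c v) * Mx v x ^ N := by
    have := one_le_pow₀ (one_le_Mx v x) (n := N)
    have := Real.one_le_exp (hc0 v)
    nlinarith
  rw [Real.posLog_eq_log_max_one (v.nonneg _)]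
  have h3 : max 1 (v (eval x p)) ≤ Real.exp (c v) * Mx v x ^ N := max_le h2 h1
  refine (Real.log_le_log (by positivity) h3).trans ?_
  rw [Real.log_mul (Real.exp_pos _).ne' (pow_pos (Mx_pos v x) _).ne', Real.log_exp, Real.log_pow]
  linarith

lemma posLog_div_le {A F r m : ℝ} (hA : 1 ≤ A) (hr : 0 < r) (hm : 1 ≤ m) (h : r ≤ m * F) :
    Real.posLog (A / F) ≤ Real.log A + Real.log m + Real.posLog r⁻¹ := by
  have hF : 0 < F := by
    by_contra hc
    push Not at hc
    nlinarith
  have h1 : A / F ≤ A * m * r⁻¹ := by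
    rw [div_le_iff₀ hF, mul_assoc, mul_assoc]
    have h2 : 1 ≤ m * (r⁻¹ * F) := by
      have h3 : m * (r⁻¹ * F) = (m * F) / r := by field_simp
      rw [h3, le_div_iff₀ hr]; linarith
    nlinarith
  have h4 : 0 ≤ Real.log A := Real.log_nonneg hA
  have h5 : 0 ≤ Real.log m := Real.log_nonneg hm
  have h6 : 0 ≤ Real.posLog r⁻¹ := Real.posLog_nonneg
  rw [Real.posLog]
  refine max_le (by positivity) ?_
  refine (Real.log_le_log (by positivity) h1).trans ?_
  rw [Real.log_mul (by positivity) (by positivity), Real.log_mul (by positivity) (by positivity)]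
  have h7 : Real.log r⁻¹ ≤ Real.posLog r⁻¹ := le_max_right _ _
  linarith

lemma lamF_le {n : ℕ} {ι : Type} [Finite ι] (D : ℕ) (f : ι → MvPolynomial (Fin n) K)
    (v : AbsoluteValue K ℝ) (x : Fin n → K) (j : ι) (hj : eval x (f j) ≠ 0) :
    lamF D f v x ≤ D * Real.log (Mx v x) + Real.posLog (v (eval x (f j))⁻¹) := by
  have h1 := posLog_div_le (A := Mx v x ^ D) (F := Fm f v x) (r := v (eval x (f j))) (m := 1)
    (one_le_pow₀ (one_le_Mx v x)) (v.pos hj) le_rfl (by rw [one_mul]; exact le_Fm f v x j)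
  rw [Real.log_pow, Real.log_one, add_zero] at h1
  rw [map_inv₀]
  exact h1

lemma FS_lamF {n : ℕ} {ι : Type} [Finite ι] (D : ℕ) (f : ι → MvPolynomial (Fin n) K)
    (x : Fin n → K) (j : ι) (hj : eval x (f j) ≠ 0) : FS (fun v => lamF D f v x) := by
  refine (((FS_log_Mx x).const_mul (D : ℝ)).add (FS_posLog (eval x (f j))⁻¹)).mono fun v _ hv => ?_
  refine le_antisymm ?_ (lamF_nonneg D f v x)
  rw [← hv]
  exact lamF_le D f v x j hj

/-- trivial upper bound for the height -/
lemma eval_cons_finSuccEquiv {n : ℕ} (y : K) (x : Fin n → K)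
    (q : Polynomial (MvPolynomial (Fin n) K)) :
    eval (Fin.cons y x : Fin (n + 1) → K) ((finSuccEquiv K n).symm q) =
      Polynomial.eval y (q.map (eval x)) := by
  rw [eval_eq_eval_mv_eval', AlgEquiv.apply_symm_apply]

lemma reflect_eval {n : ℕ} (D : ℕ) (y : K) (hy : y ≠ 0) (x : Fin n → K)
    (q : Polynomial (MvPolynomial (Fin n) K)) (hq : q.natDegree ≤ D) :
    Polynomial.eval y⁻¹ ((Polynomial.reflect D q).map (eval x)) * y ^ D =
      Polynomial.eval y (q.map (eval x)) := by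
  let := invertibleOfNonzero hy
  have h := Polynomial.eval₂_reflect_mul_pow (eval x : MvPolynomial (Fin n) K →+* K) y D q hq
  rw [invOf_eq_inv] at h
  rw [Polynomial.eval_map, Polynomial.eval_map]
  exact h

/-- One elimination identity. -/
lemma elim_one {n : ℕ} {ι : Type} [Fintype ι] (a : ι → Polynomial (MvPolynomial (Fin n) K)) :
    ∃ (N : ℕ) (c : AbsoluteValue K ℝ → ℝ), FS c ∧ (∀ v, 0 ≤ c v) ∧
      ∀ (R : MvPolynomial (Fin n) K) (p : ι → Polynomial (MvPolynomial (Fin n) K)),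
      Polynomial.C R = ∑ j, a j * p j → ∀ v (y : K) (x : Fin n → K) (B : ℝ), v y ≤ 1 →
      (∀ j, v (Polynomial.eval y ((p j).map (eval x))) ≤ B) → 0 ≤ B →
      v (eval x R) ≤ Real.exp (c v) * Mx v x ^ N * B := by
  classical
  set b : ι → MvPolynomial (Fin (n + 1)) K := fun j => (finSuccEquiv K n).symm (a j) with hb
  set N := Finset.univ.sup fun j => Finset.univ.sup fun i => degreeOf i (b j) with hN
  have hdeg : ∀ j i, degreeOf i (b j) ≤ N := fun j i =>
    (Finset.le_sup (f := fun i => degreeOf i (b j)) (Finset.mem_univ i)).trans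
      (Finset.le_sup (f := fun j => Finset.univ.sup fun i => degreeOf i (b j)) (Finset.mem_univ j))
  choose c hc hc0 h using fun j => evbd N (b j) (hdeg j)
  have h1 : (1 : ℝ) ≤ (Fintype.card ι : ℝ) + 1 := by
    have : (0 : ℝ) ≤ (Fintype.card ι : ℝ) := Nat.cast_nonneg _
    linarith
  refine ⟨N, fun v => Real.log (cst v (Fintype.card ι + 1)) + ∑ j, c j v,
    (FS_log_cst _).add (FS.sum _ fun j _ => hc j), fun v =>
      add_nonneg (Real.log_nonneg (one_le_cst v h1)) (Finset.sum_nonneg fun j _ => hc0 j v), ?_⟩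
  intro R p hR v y x B hy hB hB0
  have e1 : eval x R = ∑ j, Polynomial.eval y ((a j).map (eval x)) *
      Polynomial.eval y ((p j).map (eval x)) := by
    have := congrArg (fun q : Polynomial (MvPolynomial (Fin n) K) =>
      Polynomial.eval y (q.map (eval x))) hR
    simpa [Polynomial.map_sum, Polynomial.eval_finsetSum] using this
  rw [e1, Real.exp_add, Real.exp_log (cst_pos v h1), mul_assoc, mul_assoc]
  have hM := Mx_pos v x
  refine abv_sum_le v _ _ (by positivity) (fun j _ => ?_) (by simp)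
  rw [map_mul, ← mul_assoc]
  refine mul_le_mul ?_ (hB j) (v.nonneg _) (by positivity)
  have h2 := h j v (Fin.cons y x)
  rw [hb, eval_cons_finSuccEquiv, Mx_cons] at h2
  have h3 : Mv v y = 1 := max_eq_left hy
  rw [h3, one_mul] at h2
  refine h2.trans (mul_le_mul_of_nonneg_right (Real.exp_le_exp.2 ?_) (by positivity))
  exact Finset.single_le_sum (f := fun j => c j v) (fun j _ => hc0 j v) (Finset.mem_univ j)

/-- ELIM: the local heights with the last coordinates fixed are bounded by a function `ρ` with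
`Σ_v ρ_v ≪ h(x') + 1`. -/
theorem elim_bound {n : ℕ} {ι : Type} [Fintype ι] {D : ℕ}
    {f : ι → MvPolynomial (Fin (n + 1)) K} (hf : GoodF D f) :
    ∃ (R : MvPolynomial (Fin n) K) (N : ℕ) (C : ℝ), R ≠ 0 ∧ 0 ≤ C ∧ ∀ x : Fin n → K,
      eval x R ≠ 0 → ∃ ρ : AbsoluteValue K ℝ → ℝ, FS ρ ∧ (∀ v, 0 ≤ ρ v) ∧
        (∀ v y, lamF D f v (Fin.cons y x) ≤ ρ v) ∧
        PS ρ ≤ N * ∑ i, logHeight₁ (x i) + C ∧
        (∃ jk, eval x (cf D f jk) ≠ 0) ∧ ∀ y, ∃ j, eval (Fin.cons y x : Fin (n + 1) → K) (f j) ≠ 0 := by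
  classical
  obtain ⟨R, R', a, a', hR, hR', ha, ha'⟩ := hf.elim
  obtain ⟨N₁, c₁, hc₁, hc₁0, h₁⟩ := elim_one a
  obtain ⟨N₂, c₂, hc₂, hc₂0, h₂⟩ := elim_one a'
  obtain ⟨N₃, C₃, hC₃, h₃⟩ := height_eval R
  obtain ⟨N₄, C₄, hC₄, h₄⟩ := height_eval R'
  have hdeg : ∀ j, (finSuccEquiv K n (f j)).natDegree ≤ D := fun j => by
    rw [natDegree_finSuccEquiv]; exact hf.deg j 0
  refine ⟨R * R', (N₁ + D) + (N₂ + D) + N₃ + N₄, PS c₁ + PS c₂ + C₃ + C₄, mul_ne_zero hR hR',
    by have := PS_nonneg hc₁ hc₁0; have := PS_nonneg hc₂ hc₂0; positivity, fun x hx => ?_⟩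
  rw [map_mul] at hx
  have hx1 := left_ne_zero_of_mul hx
  have hx2 := right_ne_zero_of_mul hx
  set ρ : AbsoluteValue K ℝ → ℝ := fun v => ((((N₁ + D : ℕ) : ℝ) + ((N₂ + D : ℕ) : ℝ)) *
    Real.log (Mx v x)) + (c₁ v + c₂ v) + (Real.posLog (v (eval x R)⁻¹) +
      Real.posLog (v (eval x R')⁻¹)) with hρ
  have hFS : FS ρ := (((FS_log_Mx x).const_mul _).add (hc₁.add hc₂)).add
    ((FS_posLog _).add (FS_posLog _))
  have hval : ∀ v y, lamF D f v (Fin.cons y x) ≤ ρ v := by
    intro v y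
    have hl0 := log_Mx_nonneg v x
    have hp1 : 0 ≤ Real.posLog (v (eval x R)⁻¹) := Real.posLog_nonneg
    have hp2 : 0 ≤ Real.posLog (v (eval x R')⁻¹) := Real.posLog_nonneg
    have hcc1 := hc₁0 v
    have hcc2 := hc₂0 v
    rcases le_or_gt (v y) 1 with hy | hy
    · have h5 := h₁ R _ ha v y x (Fm f v (Fin.cons y x)) hy (fun j => by
        rw [← eval_eq_eval_mv_eval']
        exact le_Fm f v _ j) (Fm_nonneg _ _ _)
      have h6 := posLog_div_le (A := Mx v (Fin.cons y x : Fin (n + 1) → K) ^ D)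
        (one_le_pow₀ (one_le_Mx v _)) (v.pos hx1)
        (m := Real.exp (c₁ v) * Mx v x ^ N₁) (by
          have := one_le_pow₀ (one_le_Mx v x) (n := N₁)
          have := Real.one_le_exp (hc₁0 v)
          nlinarith) h5
      rw [Real.log_mul (Real.exp_pos _).ne' (pow_pos (Mx_pos v x) _).ne', Real.log_exp,
        Real.log_pow, Real.log_pow, Mx_cons, show Mv v y = 1 from max_eq_left hy, one_mul,
        ← map_inv₀] at h6
      rw [lamF, Mx_cons, show Mv v y = 1 from max_eq_left hy, one_mul]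
      refine h6.trans ?_
      rw [hρ]
      push_cast
      nlinarith [mul_nonneg (Nat.cast_nonneg (α := ℝ) N₂) hl0,
        mul_nonneg (Nat.cast_nonneg (α := ℝ) D) hl0]
    · have hy0 : y ≠ 0 := by rintro rfl; rw [map_zero] at hy; linarith
      have hMy : Mv v y = v y := max_eq_right hy.le
      have hyinv : v y⁻¹ ≤ 1 := by rw [map_inv₀]; exact inv_le_one_of_one_le₀ hy.le
      have hvy : 0 < v y := v.pos hy0
      set B : ℝ := Fm f v (Fin.cons y x : Fin (n + 1) → K) / v y ^ D with hB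
      have hB0 : 0 ≤ B := div_nonneg (Fm_nonneg _ _ _) (by positivity)
      have h5 := h₂ R' _ ha' v y⁻¹ x B hyinv (fun j => by
        have h7 := reflect_eval D y hy0 x _ (hdeg j)
        rw [← eval_eq_eval_mv_eval'] at h7
        have h8 := congrArg v h7
        rw [map_mul, map_pow] at h8
        rw [hB, le_div_iff₀ (by positivity), h8]
        exact le_Fm f v _ j) hB0
      have h6 := posLog_div_le (A := Mx v x ^ D) (F := B)
        (one_le_pow₀ (one_le_Mx v _)) (v.pos hx2)
        (m := Real.exp (c₂ v) * Mx v x ^ N₂) (by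
          have := one_le_pow₀ (one_le_Mx v x) (n := N₂)
          have := Real.one_le_exp (hc₂0 v)
          nlinarith) h5
      rw [Real.log_mul (Real.exp_pos _).ne' (pow_pos (Mx_pos v x) _).ne', Real.log_exp,
        Real.log_pow, Real.log_pow, ← map_inv₀] at h6
      have h9 : Mx v (Fin.cons y x : Fin (n + 1) → K) ^ D / Fm f v (Fin.cons y x) =
          Mx v x ^ D / B := by
        rw [Mx_cons, hMy, mul_pow, hB, div_div_eq_mul_div, mul_comm]
      rw [lamF, h9]
      refine h6.trans ?_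
      rw [hρ]
      push_cast
      nlinarith [mul_nonneg (Nat.cast_nonneg (α := ℝ) N₁) hl0,
        mul_nonneg (Nat.cast_nonneg (α := ℝ) D) hl0]
  refine ⟨ρ, hFS, fun v => (lamF_nonneg D f v _).trans (hval v 0), hval, ?_, ?_, ?_⟩
  · have e1 : PS ρ = (((N₁ + D : ℕ) : ℝ) + ((N₂ + D : ℕ) : ℝ)) * ∑ i, logHeight₁ (x i) +
        (PS c₁ + PS c₂) + (logHeight₁ (eval x R) + logHeight₁ (eval x R')) := by
      rw [hρ, PS_add (((FS_log_Mx x).const_mul _).add (hc₁.add hc₂))
        ((FS_posLog _).add (FS_posLog _)), PS_add ((FS_log_Mx x).const_mul _) (hc₁.add hc₂),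
        PS_const_mul, PS_log_Mx, PS_add hc₁ hc₂, PS_add (FS_posLog _) (FS_posLog _),
        PS_posLog, PS_posLog, logHeight₁_inv, logHeight₁_inv]
    rw [e1]
    have := h₃ x
    have := h₄ x
    push_cast
    nlinarith
  · -- some coefficient is not zero
    by_contra hcon
    push Not at hcon
    apply hx1
    have hz : ∀ j, (finSuccEquiv K n (f j)).map (eval x) = 0 := by
      intro j
      ext k
      rw [Polynomial.coeff_map, Polynomial.coeff_zero]
      rcases lt_or_ge k (D + 1) with hk | hk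
      · exact hcon (j, ⟨k, hk⟩)
      · rw [Polynomial.coeff_eq_zero_of_natDegree_lt (by have := hdeg j; omega), map_zero]
    have := congrArg (fun q : Polynomial (MvPolynomial (Fin n) K) =>
      Polynomial.eval 0 (q.map (eval x))) ha
    simpa [Polynomial.map_sum, Polynomial.eval_finsetSum, hz] using this
  · intro y
    by_contra hcon
    push Not at hcon
    apply hx1
    have := congrArg (fun q : Polynomial (MvPolynomial (Fin n) K) =>
      Polynomial.eval y (q.map (eval x))) ha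
    simpa [Polynomial.map_sum, Polynomial.eval_finsetSum, ← eval_eq_eval_mv_eval', hcon] using this

end ps

end

end Pool.Agent.Helper29.GC
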