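import Pool.Agent.Helper29.GC.Line2
import Pool.Agent.Helper29.GC.Count

/-!
# General centres: induction on the number of factors
-/

namespace Pool.Agent.Helper29.GC

open Pool.Agent.Helper29.BL Height Height.AdmissibleAbsValues WeierstrassCurve MvPolynomial

set_option linter.unusedSectionVars false

noncomputable section

variable {K : Type} [Field K] [NumberField K] [DecidableEq K]

/-- MAIN. In a box of height `T` the points which are close to the common zeros of the family, outside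
a proper closed subset, are at most `C Σ_i ∏_{j ≠ i} #Γ_j(T)` in number. -/
theorem main (n : ℕ) : ∀ (W : Fin n → Affine K) (_ : ∀ i, (W i).IsElliptic)
    (Γ : ∀ i, AddSubgroup (W i).Point) (_ : ∀ i, (Γ i).FG) (ι : Type) [Fintype ι] (D : ℕ)
    (f : ι → MvPolynomial (Fin n) K), GoodF D f → ∀ δ : ℝ, 0 < δ →
    ∃ (Z : MvPolynomial (Fin n) K) (C T₀ : ℝ), Z ≠ 0 ∧ 0 ≤ C ∧ 0 ≤ T₀ ∧ ∀ T : ℝ, T₀ ≤ T →
      ∀ B : Finset (∀ i, (W i).Point), (∀ z ∈ B, (∀ i, z i ∈ Γ i ∧ z i ≠ 0 ∧ hx (z i) ≤ T) ∧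
        eval (fun i => xc (z i)) Z ≠ 0 ∧ δ * T ≤ gF D f (fun i => xc (z i))) →
      (B.card : ℝ) ≤ C * ∑ i, (∏ j, cnt (Γ j) T) / cnt (Γ i) T := by
  classical
  induction n with
  | zero =>
    intro W _ Γ _ ι _ D f hf δ hδ
    refine ⟨1, 0, |gF D f (fun i : Fin 0 => i.elim0)| / δ + 1, one_ne_zero, le_rfl, by positivity,
      fun T hT B hB => ?_⟩
    have hB0 : B = ∅ := by
      by_contra hne
      obtain ⟨z, hz⟩ := Finset.nonempty_of_ne_empty hne
      obtain ⟨-, -, h⟩ := hB z hz
      have e : (fun i => xc (z i)) = (fun i : Fin 0 => (i.elim0 : K)) := Subsingleton.elim _ _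
      rw [e] at h
      have h1 := le_abs_self (gF D f (fun i : Fin 0 => (i.elim0 : K)))
      have h2 : |gF D f (fun i : Fin 0 => (i.elim0 : K))| / δ < T := by linarith
      rw [div_lt_iff₀ hδ] at h2
      linarith
    rw [hB0]
    simp
  | succ n ih =>
    intro W hW Γ hΓ ι _ D f hf δ hδ
    have := hW 0
    obtain ⟨Z', C', T₁, hZ', hC', hT₁, hI⟩ := ih (fun i => W i.succ) (fun i => hW i.succ)
      (fun i => Γ i.succ) (fun i => hΓ i.succ) (ι × Fin (D + 1)) D (cf D f) hf.cf (δ / 4)
      (by positivity)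
    obtain ⟨R, N, T₂, hR, hT₂, hL⟩ := line (W 0) (Γ 0) (hΓ 0) D f hf δ hδ
    refine ⟨rename Fin.succ (Z' * R), C' + N, max T₁ T₂, ?_, by positivity,
      hT₁.trans (le_max_left _ _), ?_⟩
    · intro h
      exact mul_ne_zero hZ' hR ((rename_eq_zero_iff_of_injective _ (Fin.succ_injective n)).1 h)
    intro T hT B hB
    have hTT₁ : T₁ ≤ T := (le_max_left _ _).trans hT
    have hTT₂ : T₂ ≤ T := (le_max_right _ _).trans hT
    have hT0 : 0 ≤ T := hT₁.trans hTT₁
    -- the tail
    set tl : (∀ i, (W i).Point) → ∀ i : Fin n, (W i.succ).Point := fun z i => z i.succ with htl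
    have hBp : ∀ z ∈ B, (∀ i, z i ∈ Γ i ∧ z i ≠ 0 ∧ hx (z i) ≤ T) ∧
        eval (fun i => xc (tl z i)) Z' ≠ 0 ∧ eval (fun i => xc (tl z i)) R ≠ 0 ∧
        δ * T ≤ gF D f (Fin.cons (xc (z 0)) (fun i => xc (tl z i)) : Fin (n + 1) → K) := by
      intro z hz
      obtain ⟨h1, h2, h3⟩ := hB z hz
      rw [eval_rename, map_mul] at h2
      refine ⟨h1, left_ne_zero_of_mul h2, right_ne_zero_of_mul h2, ?_⟩
      have e : (Fin.cons (xc (z 0)) (fun i => xc (tl z i)) : Fin (n + 1) → K) =
          fun i => xc (z i) := by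
        funext i
        refine Fin.cases ?_ (fun i => ?_) i <;> simp [htl]
      rw [e]
      exact h3
    set Q : (∀ i, (W i).Point) → Prop := fun z =>
      δ / 4 * T ≤ gF D (cf D f) (fun i => xc (tl z i)) with hQ
    set B₁ := B.filter Q with hB₁
    set B₂ := B.filter fun z => ¬ Q z with hB₂
    have hcard : B.card = B₁.card + B₂.card :=
      (Finset.card_filter_add_card_filter_not Q).symm
    -- first part
    have h1 : (B₁.card : ℝ) ≤ (C' * ∑ i : Fin n, (∏ j : Fin n, cnt (Γ j.succ) T) / cnt (Γ i.succ) T) *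
        cnt (Γ 0) T := by
      have h2 := hI T hTT₁ (B₁.image tl) (by
        intro t ht
        obtain ⟨z, hz, rfl⟩ := Finset.mem_image.1 ht
        obtain ⟨hzB, hzQ⟩ := Finset.mem_filter.1 hz
        obtain ⟨h3, h4, -, -⟩ := hBp z hzB
        exact ⟨fun i => h3 i.succ, h4, hzQ⟩)
      have h3 : B₁.card ≤ ((B₁.image tl) ×ˢ (pts (Γ 0) T)).card := by
        refine Finset.card_le_card_of_injOn (fun z => (tl z, z 0)) ?_ ?_
        · intro z hz
          have hz' := Finset.mem_coe.1 hz
          obtain ⟨h3, -, -, -⟩ := hBp z (Finset.mem_filter.1 hz').1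
          exact Finset.mem_coe.2 (Finset.mem_product.2 ⟨Finset.mem_image_of_mem _ hz',
            mem_pts.2 ⟨(h3 0).1, (h3 0).2.2⟩⟩)
        · intro z _ w _ hzw
          have e1 : tl z = tl w := congrArg Prod.fst hzw
          have e2 : z 0 = w 0 := congrArg Prod.snd hzw
          funext i
          refine Fin.cases e2 (fun i => ?_) i
          exact congrFun e1 i
      rw [Finset.card_product] at h3
      calc (B₁.card : ℝ) ≤ ((B₁.image tl).card : ℝ) * ((pts (Γ 0) T).card : ℝ) := by
            exact_mod_cast h3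
        _ ≤ _ := by
            rw [← cnt_eq]
            exact mul_le_mul_of_nonneg_right h2 (cnt_nonneg _ _)
    -- second part
    have h2 : (B₂.card : ℝ) ≤ N * ∏ j, cnt (Γ (Fin.succ j)) T := by
      have h3 : B₂.card ≤ N * (B₂.image tl).card := by
        refine Finset.card_le_mul_card_image B₂ N fun t ht => ?_
        obtain ⟨z₀, hz₀, hz₀t⟩ := Finset.mem_image.1 ht
        obtain ⟨hz₀B, hz₀Q⟩ := Finset.mem_filter.1 hz₀
        obtain ⟨h3, -, h5, -⟩ := hBp z₀ hz₀B
        rw [hz₀t] at h5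
        have hx' : ∀ i, logHeight₁ (xc (t i)) ≤ T := by
          intro i
          rw [← hz₀t]
          exact (h3 i.succ).2.2
        have hg : gF D (cf D f) (fun i => xc (t i)) ≤ δ / 4 * T := by
          rw [hQ] at hz₀Q
          simp only [not_le, hz₀t] at hz₀Q
          exact hz₀Q.le
        have h6 := hL T hTT₂ (fun i => xc (t i)) hx' h5 hg
          ((B₂.filter fun z => tl z = t).image fun z => z 0) (by
          intro P hP
          obtain ⟨z, hz, rfl⟩ := Finset.mem_image.1 hP
          obtain ⟨hzB₂, hzt⟩ := Finset.mem_filter.1 hz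
          obtain ⟨h7, -, -, h8⟩ := hBp z (Finset.mem_filter.1 hzB₂).1
          rw [hzt] at h8
          exact ⟨(h7 0).1, (h7 0).2.1, (h7 0).2.2, h8⟩)
        rw [Finset.card_image_of_injOn] at h6
        · exact h6
        · intro z hz w hw hzw
          have hz' := (Finset.mem_filter.1 (Finset.mem_coe.1 hz)).2
          have hw' := (Finset.mem_filter.1 (Finset.mem_coe.1 hw)).2
          funext i
          refine Fin.cases hzw (fun i => ?_) i
          exact congrFun (hz'.trans hw'.symm) i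
      have h4 : (B₂.image tl).card ≤ ∏ j, (pts (Γ (Fin.succ j)) T).card := by
        rw [← Fintype.card_piFinset]
        refine Finset.card_le_card fun t ht => ?_
        obtain ⟨z, hz, rfl⟩ := Finset.mem_image.1 ht
        obtain ⟨h7, -, -, -⟩ := hBp z (Finset.mem_filter.1 hz).1
        rw [Fintype.mem_piFinset]
        exact fun i => mem_pts.2 ⟨(h7 i.succ).1, (h7 i.succ).2.2⟩
      calc (B₂.card : ℝ) ≤ ((N * (B₂.image tl).card : ℕ) : ℝ) := by exact_mod_cast h3
        _ = (N : ℝ) * ((B₂.image tl).card : ℝ) := by push_cast; ring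
        _ ≤ N * ((∏ j, (pts (Γ (Fin.succ j)) T).card : ℕ) : ℝ) :=
            mul_le_mul_of_nonneg_left (by exact_mod_cast h4) (Nat.cast_nonneg _)
        _ = _ := by
            push_cast
            simp only [cnt_eq]
    -- conclusion
    have hc0 : 0 < cnt (Γ 0) T := lt_of_lt_of_le one_pos (one_le_cnt _ hT0)
    set P := ∏ j, cnt (Γ (Fin.succ j)) T with hP
    have hP0 : 0 ≤ P := Finset.prod_nonneg fun _ _ => cnt_nonneg _ _
    have hS : ∑ i, (∏ j, cnt (Γ j) T) / cnt (Γ i) T =
        P + cnt (Γ 0) T * ∑ i, P / cnt (Γ (Fin.succ i)) T := by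
      rw [Fin.prod_univ_succ, Fin.sum_univ_succ, ← hP, mul_div_cancel_left₀ _ hc0.ne',
        Finset.mul_sum]
      congr 1
      refine Finset.sum_congr rfl fun i _ => ?_
      rw [mul_div_assoc]
    have hS0 : 0 ≤ ∑ i, P / cnt (Γ (Fin.succ i)) T :=
      Finset.sum_nonneg fun i _ => div_nonneg hP0 (cnt_nonneg _ _)
    rw [hcard, hS]
    push_cast
    have hN0 : (0 : ℝ) ≤ N := Nat.cast_nonneg _
    nlinarith [mul_nonneg hC' hP0, mul_nonneg hN0 (mul_nonneg hc0.le hS0)]

end

end Pool.Agent.Helper29.GC
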